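import Pool.Agent.Helper80K3.Closed

/-!
Approximation of monotone programs by closed families of partial functions.
-/

namespace Pool.Agent.Helper80K3

open Finset

/-! ### Samples -/

theorem cover_step {A : Type} [Fintype A] [DecidableEq A] {M : ℕ} (T : Finset A) (a : A)
    (ha : a ∉ T) :
    ((univ : Finset (Fin M → A)).filter (fun θ => insert a T ⊆ univ.image θ)).card *
      Fintype.card A ≤
      M * ((univ : Finset (Fin M → A)).filter (fun θ => T ⊆ univ.image θ)).card := by
  classical
  rcases M with _ | M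
  · have : (univ : Finset (Fin 0 → A)).filter (fun θ => insert a T ⊆ univ.image θ) = ∅ := by
      rw [Finset.filter_eq_empty_iff]
      intro θ _ h
      have := h (Finset.mem_insert_self a T)
      simp at this
    rw [this]
    simp
  · let ix : (Fin (M + 1) → A) → Fin (M + 1) := fun θ => if h : ∃ i, θ i = a then h.choose else 0
    have hix : ∀ θ : Fin (M + 1) → A, insert a T ⊆ univ.image θ → θ (ix θ) = a := by
      intro θ h
      have h1 : ∃ i, θ i = a := by
        have := h (Finset.mem_insert_self a T)
        simpa using this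
      simp only [ix]
      rw [dif_pos h1]
      exact h1.choose_spec
    have h1 : ((univ : Finset (Fin (M + 1) → A)).filter
        (fun θ => insert a T ⊆ univ.image θ)).card * Fintype.card A =
        (((univ : Finset (Fin (M + 1) → A)).filter
        (fun θ => insert a T ⊆ univ.image θ)) ×ˢ (univ : Finset A)).card := by
      rw [Finset.card_product, Finset.card_univ]
    have h2 : (M + 1) * ((univ : Finset (Fin (M + 1) → A)).filter
        (fun θ => T ⊆ univ.image θ)).card = ((univ : Finset (Fin (M + 1))) ×ˢ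
        ((univ : Finset (Fin (M + 1) → A)).filter (fun θ => T ⊆ univ.image θ))).card := by
      rw [Finset.card_product, Finset.card_univ, Fintype.card_fin]
    rw [h1, h2]
    apply Finset.card_le_card_of_injOn (fun p => (ix p.1, Function.update p.1 (ix p.1) p.2))
    · rintro ⟨θ, c⟩ hp
      rw [Finset.mem_coe, Finset.mem_product, Finset.mem_filter] at hp
      rw [Finset.mem_coe, Finset.mem_product, Finset.mem_filter]
      refine ⟨Finset.mem_univ _, Finset.mem_univ _, ?_⟩
      intro t ht
      have h3 := hp.1.2 (Finset.mem_insert_of_mem ht)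
      obtain ⟨i, _, hi⟩ := Finset.mem_image.mp h3
      refine Finset.mem_image.mpr ⟨i, Finset.mem_univ _, ?_⟩
      change Function.update θ (ix θ) c i = t
      rw [Function.update_apply, if_neg]
      · exact hi
      · intro hii
        apply ha
        simp only at hi hii
        rw [← hix θ hp.1.2, ← hii, hi]
        exact ht
    · rintro ⟨θ, c⟩ hp ⟨θ', c'⟩ hp' heq
      rw [Finset.mem_coe, Finset.mem_product, Finset.mem_filter] at hp hp'
      simp only [Prod.mk.injEq] at heq ⊢
      obtain ⟨he1, he2⟩ := heq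
      have hc : c = c' := by
        have := congrFun he2 (ix θ)
        rw [Function.update_self, he1, Function.update_self] at this
        exact this
      refine ⟨?_, hc⟩
      funext i
      by_cases hi : i = ix θ
      · rw [hi, hix θ hp.1.2]
        rw [he1, hix θ' hp'.1.2]
      · have := congrFun he2 i
        rw [Function.update_of_ne hi, Function.update_of_ne (by rw [← he1]; exact hi)] at this
        exact this

theorem cover_count {A : Type} [Fintype A] [DecidableEq A] {M : ℕ} (T : Finset A) :
    ((univ : Finset (Fin M → A)).filter (fun θ => T ⊆ univ.image θ)).card *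
      Fintype.card A ^ T.card ≤ M ^ T.card * Fintype.card (Fin M → A) := by
  classical
  induction T using Finset.induction_on with
  | empty => simp
  | insert a T ha ih =>
    rw [Finset.card_insert_of_notMem ha, pow_succ, pow_succ]
    have h := cover_step (M := M) T a ha
    calc _ = (((univ : Finset (Fin M → A)).filter
          (fun θ => insert a T ⊆ univ.image θ)).card * Fintype.card A) *
            Fintype.card A ^ T.card := by ring
      _ ≤ (M * ((univ : Finset (Fin M → A)).filter (fun θ => T ⊆ univ.image θ)).card) *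
            Fintype.card A ^ T.card := Nat.mul_le_mul_right _ h
      _ = M * (((univ : Finset (Fin M → A)).filter (fun θ => T ⊆ univ.image θ)).card *
            Fintype.card A ^ T.card) := by ring
      _ ≤ M * (M ^ T.card * Fintype.card (Fin M → A)) := Nat.mul_le_mul_left _ ih
      _ = _ := by ring

theorem cover_count_le {A : Type} [Fintype A] [DecidableEq A] {M c : ℕ} (T : Finset A)
    (hc : c ≤ T.card) :
    ((univ : Finset (Fin M → A)).filter (fun θ => T ⊆ univ.image θ)).card *
      Fintype.card A ^ c ≤ M ^ c * Fintype.card (Fin M → A) := by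
  classical
  obtain ⟨T', hT', hcard⟩ := Finset.exists_subset_card_eq hc
  rw [← hcard]
  refine le_trans (Nat.mul_le_mul_right _ ?_) (cover_count T')
  apply Finset.card_le_card
  intro θ hθ
  rw [Finset.mem_filter] at hθ ⊢
  exact ⟨hθ.1, hT'.trans hθ.2⟩

/-! ### Monotone programs -/

/-- The functions available to a monotone program: the constants, the variables and the
functions computed so far. -/
def MAv {V : Type} (L : List ((V → Bool) → Bool)) (a : (V → Bool) → Bool) : Prop :=
  a ∈ L ∨ (∃ v, a = fun σ => σ v) ∨ ∃ c : Bool, a = fun _ => c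

/-- Monotone programs: lists of functions, each of which is the conjunction or the disjunction of
two available functions. -/
inductive MProg {V : Type} : List ((V → Bool) → Bool) → Prop
  | nil : MProg []
  | and {L : List ((V → Bool) → Bool)} {a b : (V → Bool) → Bool} :
      MProg L → MAv L a → MAv L b → MProg ((fun σ => a σ && b σ) :: L)
  | or {L : List ((V → Bool) → Bool)} {a b : (V → Bool) → Bool} :
      MProg L → MAv L a → MAv L b → MProg ((fun σ => a σ || b σ) :: L)

section Approx

variable {X : Type} [DecidableEq X] [Fintype X] {Ω : Type} [Fintype Ω]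

/-- The labelled points of a sample. -/
def Gs {M : ℕ} (θ : Fin M → X × Bool) : Finset (X × Bool) := univ.image θ

/-- The input given by a set of labelled points. -/
def inp (G : Finset (X × Bool)) : X × Bool → Bool := fun e => decide (e ∈ G)

/-- The input given by a total function. -/
def inpf (f : X → Bool) : X × Bool → Bool := fun e => decide (f e.1 = e.2)

/-- All minimal members. -/
def Mn (D : Finset (Finset (X × Bool))) : Finset (Finset (X × Bool)) :=
  D.filter (fun S => ∀ T ∈ D, T ⊆ S → T = S)

theorem exists_Mn {D : Finset (Finset (X × Bool))} {S : Finset (X × Bool)} (hS : S ∈ D) :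
    ∃ T ∈ Mn D, T ⊆ S := by
  obtain ⟨T, hT, hmin⟩ := Finset.exists_min_image (D.filter (fun T => T ⊆ S)) Finset.card
    ⟨S, by simp [hS]⟩
  rw [Finset.mem_filter] at hT
  refine ⟨T, ?_, hT.2⟩
  rw [Mn, Finset.mem_filter]
  refine ⟨hT.1, fun T' hT' hsub => ?_⟩
  exact Finset.eq_of_subset_of_card_le hsub
    (hmin T' (Finset.mem_filter.mpr ⟨hT', hsub.trans hT.2⟩))

variable {F : Ω → X → Bool} {w q : ℕ}

theorem mem_Mn_mins {D : Finset (Finset (X × Bool))} {S : Finset (X × Bool)} (hS : S ∈ Mn D) :
    S ∈ mins D S.card := by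
  unfold Mn at hS
  unfold mins
  rw [Finset.mem_filter] at hS ⊢
  exact ⟨hS.1, rfl, hS.2⟩

theorem card_Mn {m k : ℕ} (hm : Even m) (hmq : m = q + 1)
    (hU : UnifOff F (univ : Finset Ω) k ∅) (hk : (m + 1) * w ≤ k) (hw : 1 ≤ w)
    {D : Finset (Finset (X × Bool))} (hD : Clsd F w q D) :
    (Mn D).card ≤ (w + 1) * (1024 * m * w) ^ w := by
  classical
  have hsub : Mn D ⊆ (range (w + 1)).biUnion (fun j => mins D j) := by
    intro S hS
    rw [Finset.mem_biUnion]
    refine ⟨S.card, ?_, mem_Mn_mins hS⟩
    rw [Finset.mem_range]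
    have : S ∈ D := (Finset.mem_filter.mp hS).1
    have := (mem_Tm.mp (hD.1 this)).1
    omega
  refine (Finset.card_le_card hsub).trans (Finset.card_biUnion_le.trans ?_)
  have h1 : ∀ j ∈ range (w + 1), (mins D j).card ≤ (1024 * m * w) ^ w := by
    intro j hj
    rw [Finset.mem_range] at hj
    refine (card_mins hm hmq hU hk hD (by omega)).trans ?_
    apply Nat.pow_le_pow_right
    · have : 0 < m := by omega
      positivity
    · omega
  refine (Finset.sum_le_card_nsmul _ _ _ h1).trans ?_
  rw [Finset.card_range, smul_eq_mul]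

theorem Nx_pos [Nonempty Ω] {k : ℕ} (hU : UnifOff F (univ : Finset Ω) k ∅)
    {Y : Finset (X × Bool)} (hY : Cons Y) (hk : Y.card ≤ k) : 0 < Nx F univ Y := by
  have h := Nx_eq hU hY (by rw [hY.card_pts]; exact hk) (Finset.disjoint_empty_right _)
  by_contra hcon
  have h0 : Nx F univ Y = 0 := by omega
  rw [h0, zero_mul] at h
  exact absurd h.symm (Finset.card_pos.mpr Finset.univ_nonempty).ne'

theorem const_clsd [Nonempty Ω] {k : ℕ} (hU : UnifOff F (univ : Finset Ω) k ∅) (hwk : w ≤ k)
    (hq : 1 ≤ q) : Clsd F w q (∅ : Finset (Finset (X × Bool))) := by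
  refine ⟨Finset.empty_subset _, ?_⟩
  intro Y hY hb
  exfalso
  have hY' := mem_Tm.mp hY
  have hpos := Nx_pos hU hY'.2 (hY'.1.trans hwk)
  have h1 : badc F ∅ Y = Nx F univ Y := by
    unfold badc Nx
    congr 1
    apply Finset.filter_congr
    intro ω _
    simp
  rw [h1] at hb
  have h2 : 2 ^ 1 ≤ 2 ^ q := Nat.pow_le_pow_right (by norm_num) hq
  nlinarith

theorem leaf_clsd [Nonempty Ω] {k : ℕ} (hU : UnifOff F (univ : Finset Ω) k ∅)
    (hwk : w + 1 ≤ k) (hq : 2 ≤ q) (x : X) (b : Bool) :
    Clsd F w q ((Tm X w).filter (fun S => (x, b) ∈ S)) := by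
  classical
  refine ⟨Finset.filter_subset _ _, ?_⟩
  intro Y hY hb
  rw [Finset.mem_filter]
  refine ⟨hY, ?_⟩
  by_contra hnot
  have hY' := mem_Tm.mp hY
  have hpos := Nx_pos hU hY'.2 (by omega)
  have hq4 : 4 ≤ 2 ^ q := by
    calc 4 = 2 ^ 2 := by norm_num
      _ ≤ 2 ^ q := Nat.pow_le_pow_right (by norm_num) hq
  have hno : ∀ ω, F ω x ≠ b → ∀ S ∈ (Tm X w).filter (fun S => (x, b) ∈ S), ¬ Sat F ω S := by
    intro ω hω S hS hsat
    rw [Finset.mem_filter] at hS
    exact hω (hsat (x, b) hS.2)
  have key : Nx F univ Y ≤ badc F ((Tm X w).filter (fun S => (x, b) ∈ S)) Y * 2 := by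
    by_cases hx : x ∈ pts Y
    · have h1 : (x, !b) ∈ Y := by
        obtain ⟨⟨x', b'⟩, he, hxe⟩ := Finset.mem_image.mp hx
        simp only at hxe
        subst hxe
        cases b <;> cases b' <;> simp_all
      have h2 : Nx F univ Y ≤ badc F ((Tm X w).filter (fun S => (x, b) ∈ S)) Y := by
        unfold Nx badc
        apply Finset.card_le_card
        intro ω hω
        rw [Finset.mem_filter] at hω ⊢
        refine ⟨hω.1, hω.2, hno ω ?_⟩
        have := hω.2 (x, !b) h1
        simp only at this
        rw [this]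
        cases b <;> simp
      omega
    · have hT : Cons ({(x, !b)} : Finset (X × Bool)) := by
        intro e he e' he' _
        rw [Finset.mem_singleton] at he he'
        rw [he, he']
      have hpt : pts ({(x, !b)} : Finset (X × Bool)) = {x} := by simp [pts]
      have h1 := Nx_union (F := F) (S := Y) hU hT (by
        rw [hpt]
        refine (Finset.card_union_le _ _).trans ?_
        rw [hY'.2.card_pts, Finset.card_singleton]
        omega) (Finset.disjoint_empty_right _) (by
        rw [hpt, Finset.disjoint_singleton_right]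
        exact hx)
      rw [Finset.card_singleton, pow_one] at h1
      rw [← h1]
      apply Nat.mul_le_mul_right
      unfold Nx badc
      apply Finset.card_le_card
      intro ω hω
      rw [Finset.mem_filter, sat_union] at hω
      rw [Finset.mem_filter]
      refine ⟨hω.1, hω.2.1, hno ω ?_⟩
      have := hω.2.2 (x, !b) (Finset.mem_singleton_self _)
      simp only at this
      rw [this]
      cases b <;> simp
  nlinarith

/-- The approximation of a monotone program. -/
theorem approx [Nonempty Ω] {m k M : ℕ} (hm : Even m) (hmq : m = q + 1) (hq : 2 ≤ q)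
    (hU : UnifOff F (univ : Finset Ω) k ∅) (hk : (m + 1) * w ≤ k) (hw : 1 ≤ w)
    {L : List ((X × Bool → Bool) → Bool)} (hL : MProg L) :
    ∃ (Ef : Finset Ω) (Ew : Finset (Fin M → X × Bool)),
      Ef.card * 2 ^ q ≤ L.length * ((Tm X w).card * Fintype.card Ω) ∧
      Ew.card * Fintype.card (X × Bool) ^ (w + 1) ≤ L.length *
        (((w + 1) * (1024 * m * w) ^ w) ^ 2 * (M ^ (w + 1) *
          Fintype.card (Fin M → X × Bool))) ∧
      ∀ a, MAv L a → ∃ D, Clsd F w q D ∧
        (∀ ω, ω ∉ Ef → (∃ S ∈ D, Sat F ω S) → a (inpf (F ω)) = true) ∧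
        (∀ θ, θ ∉ Ew → Cons (Gs θ) → a (inp (Gs θ)) = true → ∃ S ∈ D, S ⊆ Gs θ) := by
  classical
  have hwk : w + 1 ≤ k := by
    have : 2 ≤ m := by omega
    nlinarith
  -- leaves
  have hleaf : ∀ a : (X × Bool → Bool) → Bool,
      ((∃ v, a = fun σ => σ v) ∨ ∃ c : Bool, a = fun _ => c) → ∃ D, Clsd F w q D ∧
        (∀ ω, (∃ S ∈ D, Sat F ω S) → a (inpf (F ω)) = true) ∧
        (∀ θ : Fin M → X × Bool, a (inp (Gs θ)) = true → ∃ S ∈ D, S ⊆ Gs θ) := by
    rintro a (⟨⟨x, b⟩, rfl⟩ | ⟨c, rfl⟩)
    · refine ⟨(Tm X w).filter (fun S => (x, b) ∈ S), leaf_clsd hU hwk hq x b, ?_, ?_⟩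
      · rintro ω ⟨S, hS, hsat⟩
        rw [Finset.mem_filter] at hS
        have := hsat (x, b) hS.2
        simp only [inpf]
        simpa using this
      · intro θ h
        simp only [inp, decide_eq_true_eq] at h
        refine ⟨{(x, b)}, ?_, Finset.singleton_subset_iff.mpr h⟩
        rw [Finset.mem_filter, mem_Tm]
        refine ⟨⟨by rw [Finset.card_singleton]; exact hw, ?_⟩, Finset.mem_singleton_self _⟩
        intro e he e' he' _
        rw [Finset.mem_singleton] at he he'
        rw [he, he']
    · cases c with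
      | true =>
        refine ⟨Tm X w, ⟨subset_rfl, fun Y hY _ => hY⟩, fun _ _ => rfl, ?_⟩
        intro θ _
        refine ⟨∅, ?_, Finset.empty_subset _⟩
        rw [mem_Tm]
        refine ⟨by simp, ?_⟩
        intro e he
        exact absurd he (Finset.notMem_empty _)
      | false =>
        refine ⟨∅, const_clsd hU (by omega) (by omega), ?_, ?_⟩
        · rintro ω ⟨S, hS, _⟩
          exact absurd hS (Finset.notMem_empty _)
        · intro θ h
          exact absurd h (by simp)
  induction hL with
  | nil =>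
    refine ⟨∅, ∅, by simp, by simp, ?_⟩
    rintro a (h | h)
    · exact absurd h (List.not_mem_nil)
    · obtain ⟨D, hD, h1, h2⟩ := hleaf a h
      exact ⟨D, hD, fun ω _ => h1 ω, fun θ _ _ => h2 θ⟩
  | @and L a b _ ha hb ih =>
    obtain ⟨Ef, Ew, hEf, hEw, hav⟩ := ih
    obtain ⟨Da, hDa, hfa, hwa⟩ := hav a ha
    obtain ⟨Db, hDb, hfb, hwb⟩ := hav b hb
    -- the new error
    set pairs := (Mn Da ×ˢ Mn Db).filter (fun p => w + 1 ≤ (p.1 ∪ p.2).card) with hpairs
    set En := pairs.biUnion (fun p => (univ : Finset (Fin M → X × Bool)).filter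
      (fun θ => p.1 ∪ p.2 ⊆ univ.image θ)) with hEn
    have hEn1 : En.card * Fintype.card (X × Bool) ^ (w + 1) ≤
        ((w + 1) * (1024 * m * w) ^ w) ^ 2 * (M ^ (w + 1) *
          Fintype.card (Fin M → X × Bool)) := by
      have h1 : pairs.card ≤ ((w + 1) * (1024 * m * w) ^ w) ^ 2 := by
        refine (Finset.card_filter_le _ _).trans ?_
        rw [Finset.card_product, sq]
        exact Nat.mul_le_mul (card_Mn hm hmq hU hk hw hDa) (card_Mn hm hmq hU hk hw hDb)
      calc En.card * Fintype.card (X × Bool) ^ (w + 1)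
          ≤ (∑ p ∈ pairs, ((univ : Finset (Fin M → X × Bool)).filter
              (fun θ => p.1 ∪ p.2 ⊆ univ.image θ)).card) *
              Fintype.card (X × Bool) ^ (w + 1) :=
            Nat.mul_le_mul_right _ Finset.card_biUnion_le
        _ = ∑ p ∈ pairs, ((univ : Finset (Fin M → X × Bool)).filter
              (fun θ => p.1 ∪ p.2 ⊆ univ.image θ)).card *
              Fintype.card (X × Bool) ^ (w + 1) := by rw [Finset.sum_mul]
        _ ≤ ∑ _p ∈ pairs, M ^ (w + 1) * Fintype.card (Fin M → X × Bool) := by
            apply Finset.sum_le_sum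
            intro p hp
            rw [hpairs, Finset.mem_filter] at hp
            exact cover_count_le _ hp.2
        _ = pairs.card * (M ^ (w + 1) * Fintype.card (Fin M → X × Bool)) := by
            rw [Finset.sum_const, smul_eq_mul]
        _ ≤ _ := Nat.mul_le_mul_right _ h1
    refine ⟨Ef, Ew ∪ En, ?_, ?_, ?_⟩
    · refine hEf.trans ?_
      rw [List.length_cons]
      exact Nat.mul_le_mul_right _ (Nat.le_succ _)
    · rw [List.length_cons]
      calc (Ew ∪ En).card * Fintype.card (X × Bool) ^ (w + 1)
          ≤ (Ew.card + En.card) * Fintype.card (X × Bool) ^ (w + 1) :=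
            Nat.mul_le_mul_right _ (Finset.card_union_le _ _)
        _ = Ew.card * Fintype.card (X × Bool) ^ (w + 1) +
            En.card * Fintype.card (X × Bool) ^ (w + 1) := Nat.add_mul _ _ _
        _ ≤ _ := Nat.add_le_add hEw hEn1
        _ = _ := by ring
    · rintro c (hc | hc)
      · rcases List.mem_cons.mp hc with rfl | hc
        · refine ⟨Da ∩ Db, hDa.inter hDb, ?_, ?_⟩
          · rintro ω hω ⟨S, hS, hsat⟩
            rw [Finset.mem_inter] at hS
            simp only [Bool.and_eq_true]
            exact ⟨hfa ω hω ⟨S, hS.1, hsat⟩, hfb ω hω ⟨S, hS.2, hsat⟩⟩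
          · intro θ hθ hcons h
            simp only [Bool.and_eq_true] at h
            rw [Finset.mem_union] at hθ
            push Not at hθ
            obtain ⟨S, hS, hSG⟩ := hwa θ hθ.1 hcons h.1
            obtain ⟨S', hS', hSG'⟩ := hwb θ hθ.1 hcons h.2
            obtain ⟨R, hR, hRS⟩ := exists_Mn hS
            obtain ⟨R', hR', hRS'⟩ := exists_Mn hS'
            have hsub : R ∪ R' ⊆ Gs θ :=
              Finset.union_subset (hRS.trans hSG) (hRS'.trans hSG')
            have hcard : (R ∪ R').card ≤ w := by
              by_contra hcon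
              apply hθ.2
              rw [hEn, Finset.mem_biUnion]
              refine ⟨(R, R'), ?_, ?_⟩
              · rw [hpairs, Finset.mem_filter, Finset.mem_product]
                exact ⟨⟨hR, hR'⟩, by simp only; omega⟩
              · rw [Finset.mem_filter]
                exact ⟨Finset.mem_univ _, hsub⟩
            have hT : R ∪ R' ∈ Tm X w := mem_Tm.mpr ⟨hcard, hcons.mono hsub⟩
            refine ⟨R ∪ R', ?_, hsub⟩
            rw [Finset.mem_inter]
            exact ⟨hDa.up (Finset.mem_filter.mp hR).1 Finset.subset_union_left hT,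
              hDb.up (Finset.mem_filter.mp hR').1 Finset.subset_union_right hT⟩
        · obtain ⟨D, hD, h1, h2⟩ := hav c (Or.inl hc)
          exact ⟨D, hD, h1, fun θ hθ => h2 θ (fun h => hθ (Finset.mem_union_left _ h))⟩
      · obtain ⟨D, hD, h1, h2⟩ := hleaf c hc
        exact ⟨D, hD, fun ω _ => h1 ω, fun θ _ _ => h2 θ⟩
  | @or L a b _ ha hb ih =>
    obtain ⟨Ef, Ew, hEf, hEw, hav⟩ := ih
    obtain ⟨Da, hDa, hfa, hwa⟩ := hav a ha
    obtain ⟨Db, hDb, hfb, hwb⟩ := hav b hb
    obtain ⟨D', hDD', hcl', herr⟩ := exists_closure (F := F) (q := q) (Tm X w).card (Da ∪ Db)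
      (Finset.union_subset hDa.1 hDb.1) (Nat.le_add_right _ _)
    set En := (univ : Finset Ω).filter
      (fun ω => (∃ Y ∈ D', Sat F ω Y) ∧ ∀ S ∈ Da ∪ Db, ¬ Sat F ω S) with hEn
    have herr' : En.card * 2 ^ q ≤ (Tm X w).card * Fintype.card Ω := by
      refine le_trans (le_of_eq ?_) herr
      rw [hEn]
    refine ⟨Ef ∪ En, Ew, ?_, ?_, ?_⟩
    · rw [List.length_cons]
      calc (Ef ∪ En).card * 2 ^ q ≤ (Ef.card + En.card) * 2 ^ q :=
            Nat.mul_le_mul_right _ (Finset.card_union_le _ _)
        _ = Ef.card * 2 ^ q + En.card * 2 ^ q := Nat.add_mul _ _ _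
        _ ≤ _ := Nat.add_le_add hEf herr'
        _ = _ := by ring
    · refine hEw.trans ?_
      rw [List.length_cons]
      exact Nat.mul_le_mul_right _ (Nat.le_succ _)
    · rintro c (hc | hc)
      · rcases List.mem_cons.mp hc with rfl | hc
        · refine ⟨D', hcl', ?_, ?_⟩
          · rintro ω hω ⟨S, hS, hsat⟩
            rw [Finset.mem_union] at hω
            push Not at hω
            have h1 : ∃ R ∈ Da ∪ Db, Sat F ω R := by
              by_contra hcon
              push Not at hcon
              apply hω.2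
              rw [hEn, Finset.mem_filter]
              exact ⟨Finset.mem_univ _, ⟨S, hS, hsat⟩, hcon⟩
            obtain ⟨R, hR, hsatR⟩ := h1
            simp only [Bool.or_eq_true]
            rcases Finset.mem_union.mp hR with hR | hR
            · exact Or.inl (hfa ω hω.1 ⟨R, hR, hsatR⟩)
            · exact Or.inr (hfb ω hω.1 ⟨R, hR, hsatR⟩)
          · intro θ hθ hcons h
            simp only [Bool.or_eq_true] at h
            rcases h with h | h
            · obtain ⟨S, hS, hSG⟩ := hwa θ hθ hcons h
              exact ⟨S, hDD' (Finset.mem_union_left _ hS), hSG⟩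
            · obtain ⟨S, hS, hSG⟩ := hwb θ hθ hcons h
              exact ⟨S, hDD' (Finset.mem_union_right _ hS), hSG⟩
        · obtain ⟨D, hD, h1, h2⟩ := hav c (Or.inl hc)
          exact ⟨D, hD, fun ω hω => h1 ω (fun h => hω (Finset.mem_union_left _ h)), h2⟩
      · obtain ⟨D, hD, h1, h2⟩ := hleaf c hc
        exact ⟨D, hD, fun ω _ => h1 ω, fun θ _ _ => h2 θ⟩

/-- The lower bound for monotone programs. -/
theorem mono_bound [Nonempty Ω] [Nonempty X] {m k M : ℕ} (hm : Even m) (hmq : m = q + 1)
    (hq : 2 ≤ q) (hU : UnifOff F (univ : Finset Ω) k ∅) (hk : (m + 1) * w ≤ k) (hw : 1 ≤ w)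
    (h1 : 2 ^ w * (Tm X w).card ≤ 2 ^ q)
    (h2 : 8 * (1024 * m * w) ^ 2 * M ≤ Fintype.card (X × Bool))
    {L : List ((X × Bool → Bool) → Bool)} (hL : MProg L)
    {φ : (X × Bool → Bool) → Bool} (hφ : MAv L φ) (hf : ∀ ω, φ (inpf (F ω)) = false)
    (W : Finset (Fin M → X × Bool)) (hWc : ∀ θ ∈ W, Cons (Gs θ))
    (hWφ : ∀ θ ∈ W, φ (inp (Gs θ)) = true)
    (hW : Fintype.card (Fin M → X × Bool) ≤ 2 * W.card) : 2 ^ w ≤ L.length := by
  classical
  by_contra hlen
  push Not at hlen
  obtain ⟨Ef, Ew, hEf, hEw, hav⟩ := approx (M := M) hm hmq hq hU hk hw hL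
  obtain ⟨D, hD, hfD, hwD⟩ := hav φ hφ
  set K := 1024 * m * w with hK
  have hmpos : 0 < m := by omega
  have hKpos : 1 ≤ K := by rw [hK]; exact Nat.succ_le_of_lt (by positivity)
  have hTpos : 0 < (Tm X w).card := by
    apply Finset.card_pos.mpr
    refine ⟨∅, ?_⟩
    rw [mem_Tm]
    refine ⟨by simp, ?_⟩
    intro e he
    exact absurd he (Finset.notMem_empty _)
  have hΩ : 0 < Fintype.card Ω := Fintype.card_pos
  by_cases hemp : ∅ ∈ D
  · have hall : Ef = univ := by
      rw [Finset.eq_univ_iff_forall]
      intro ω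
      by_contra hω
      have := hfD ω hω ⟨∅, hemp, fun e he => absurd he (Finset.notMem_empty _)⟩
      rw [hf ω] at this
      exact Bool.noConfusion this
    rw [hall, Finset.card_univ] at hEf
    have h3 : Fintype.card Ω * 2 ^ q ≤ (L.length * (Tm X w).card) * Fintype.card Ω := by
      calc _ ≤ _ := hEf
        _ = _ := by ring
    have h4 : L.length * (Tm X w).card < 2 ^ w * (Tm X w).card :=
      Nat.mul_lt_mul_of_pos_right hlen hTpos
    have h5 : (L.length * (Tm X w).card) * Fintype.card Ω < 2 ^ q * Fintype.card Ω :=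
      Nat.mul_lt_mul_of_pos_right (lt_of_lt_of_le h4 h1) hΩ
    rw [Nat.mul_comm] at h3
    omega
  · set A := Fintype.card (X × Bool) with hA
    set N := Fintype.card (Fin M → X × Bool) with hN
    have hApos : 0 < A := Fintype.card_pos
    have hNpos : 0 < N := Fintype.card_pos
    -- accepted by the approximator
    set Acc := (univ : Finset (Fin M → X × Bool)).filter (fun θ => ∃ S ∈ D, S ⊆ Gs θ) with hAcc
    have hAccsub : Acc ⊆ (range w).biUnion (fun j => (mins D (j + 1)).biUnion
        (fun S => (univ : Finset (Fin M → X × Bool)).filter (fun θ => S ⊆ univ.image θ))) := by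
      intro θ hθ
      rw [hAcc, Finset.mem_filter] at hθ
      obtain ⟨_, S, hS, hSG⟩ := hθ
      obtain ⟨R, hR, hRS⟩ := exists_Mn hS
      have hRD : R ∈ D := (Finset.mem_filter.mp hR).1
      have hRcard := (mem_Tm.mp (hD.1 hRD)).1
      have hRne : R.card ≠ 0 := by
        intro h
        rw [Finset.card_eq_zero] at h
        exact hemp (h ▸ hRD)
      rw [Finset.mem_biUnion]
      refine ⟨R.card - 1, Finset.mem_range.mpr (by omega), ?_⟩
      rw [Finset.mem_biUnion]
      refine ⟨R, ?_, ?_⟩
      · rw [Nat.sub_add_cancel (by omega)]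
        exact mem_Mn_mins hR
      · rw [Finset.mem_filter]
        exact ⟨Finset.mem_univ _, hRS.trans hSG⟩
    have hterm : ∀ j ∈ range w, (((mins D (j + 1)).biUnion
        (fun S => (univ : Finset (Fin M → X × Bool)).filter
          (fun θ => S ⊆ univ.image θ))).card : ℝ) ≤ N * (1 / 8 : ℝ) ^ (j + 1) := by
      intro j hj
      rw [Finset.mem_range] at hj
      have h3 : ((mins D (j + 1)).biUnion
          (fun S => (univ : Finset (Fin M → X × Bool)).filter
          (fun θ => S ⊆ univ.image θ))).card * A ^ (j + 1) ≤ K ^ (j + 1) * (M ^ (j + 1) * N) := by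
        calc _ ≤ (∑ S ∈ mins D (j + 1), ((univ : Finset (Fin M → X × Bool)).filter
              (fun θ => S ⊆ univ.image θ)).card) * A ^ (j + 1) :=
              Nat.mul_le_mul_right _ Finset.card_biUnion_le
          _ = ∑ S ∈ mins D (j + 1), ((univ : Finset (Fin M → X × Bool)).filter
              (fun θ => S ⊆ univ.image θ)).card * A ^ (j + 1) := by rw [Finset.sum_mul]
          _ ≤ ∑ _S ∈ mins D (j + 1), M ^ (j + 1) * N := by
              apply Finset.sum_le_sum
              intro S hS
              unfold mins at hS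
              rw [Finset.mem_filter] at hS
              exact cover_count_le S hS.2.1.ge
          _ = (mins D (j + 1)).card * (M ^ (j + 1) * N) := by
              rw [Finset.sum_const, smul_eq_mul]
          _ ≤ _ := Nat.mul_le_mul_right _ (card_mins hm hmq hU hk hD (by omega))
      have h4 : 8 * (K * M) ≤ A := by
        refine le_trans ?_ h2
        have : K * M ≤ K ^ 2 * M := by
          apply Nat.mul_le_mul_right
          nlinarith
        nlinarith
      have h5 : 8 ^ (j + 1) * (K ^ (j + 1) * M ^ (j + 1)) ≤ A ^ (j + 1) := by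
        rw [← mul_pow, ← mul_pow]
        exact Nat.pow_le_pow_left h4 _
      have h6 : (((mins D (j + 1)).biUnion
          (fun S => (univ : Finset (Fin M → X × Bool)).filter
          (fun θ => S ⊆ univ.image θ))).card * 8 ^ (j + 1)) * A ^ (j + 1) ≤
          N * A ^ (j + 1) := by
        calc _ = (((mins D (j + 1)).biUnion
          (fun S => (univ : Finset (Fin M → X × Bool)).filter
          (fun θ => S ⊆ univ.image θ))).card * A ^ (j + 1)) * 8 ^ (j + 1) := by ring
          _ ≤ (K ^ (j + 1) * (M ^ (j + 1) * N)) * 8 ^ (j + 1) := Nat.mul_le_mul_right _ h3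
          _ = N * (8 ^ (j + 1) * (K ^ (j + 1) * M ^ (j + 1))) := by ring
          _ ≤ N * A ^ (j + 1) := Nat.mul_le_mul_left _ h5
      have h7 := Nat.le_of_mul_le_mul_right h6 (by positivity)
      rw [one_div, inv_pow, ← div_eq_mul_inv, le_div_iff₀ (by positivity)]
      exact_mod_cast h7
    have hgeo : ∀ u : ℕ, ∑ j ∈ range u, (1 / 8 : ℝ) ^ (j + 1) ≤ 1 / 4 := by
      have : ∀ u : ℕ, 7 * ∑ j ∈ range u, (1 / 8 : ℝ) ^ (j + 1) = 1 - (1 / 8) ^ u := by
        intro u
        induction u with
        | zero => simp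
        | succ u ih =>
          rw [Finset.sum_range_succ, mul_add, ih]
          ring
      intro u
      have h3 := this u
      have h4 : (0 : ℝ) ≤ (1 / 8) ^ u := by positivity
      linarith
    have hAcc1 : (Acc.card : ℝ) ≤ N * (1 / 4) := by
      calc (Acc.card : ℝ) ≤ (((range w).biUnion (fun j => (mins D (j + 1)).biUnion
            (fun S => (univ : Finset (Fin M → X × Bool)).filter
              (fun θ => S ⊆ univ.image θ)))).card : ℝ) := by
              exact_mod_cast Finset.card_le_card hAccsub
        _ ≤ ∑ j ∈ range w, (((mins D (j + 1)).biUnion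
            (fun S => (univ : Finset (Fin M → X × Bool)).filter
              (fun θ => S ⊆ univ.image θ))).card : ℝ) := by
              exact_mod_cast Finset.card_biUnion_le
        _ ≤ ∑ j ∈ range w, N * (1 / 8 : ℝ) ^ (j + 1) := Finset.sum_le_sum hterm
        _ = N * ∑ j ∈ range w, (1 / 8 : ℝ) ^ (j + 1) := by rw [Finset.mul_sum]
        _ ≤ N * (1 / 4) := by
            apply mul_le_mul_of_nonneg_left (hgeo w) (Nat.cast_nonneg _)
    have hWsub : W ⊆ Ew ∪ Acc := by
      intro θ hθ
      by_cases hE : θ ∈ Ew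
      · exact Finset.mem_union_left _ hE
      · apply Finset.mem_union_right
        rw [hAcc, Finset.mem_filter]
        exact ⟨Finset.mem_univ _, hwD θ hE (hWc θ hθ) (hWφ θ hθ)⟩
    have hWle := (Finset.card_le_card hWsub).trans (Finset.card_union_le _ _)
    have hEw4 : N ≤ 4 * Ew.card := by
      have h3 : (N : ℝ) ≤ 2 * W.card := by exact_mod_cast hW
      have h4 : (W.card : ℝ) ≤ Ew.card + Acc.card := by exact_mod_cast hWle
      have h5 : (N : ℝ) ≤ 4 * Ew.card := by linarith
      exact_mod_cast h5
    have h3 : A ^ (w + 1) ≤ 4 * (L.length * (((w + 1) * K ^ w) ^ 2 * M ^ (w + 1))) := by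
      have h4 : N * A ^ (w + 1) ≤ N * (4 * (L.length * (((w + 1) * K ^ w) ^ 2 *
          M ^ (w + 1)))) := by
        calc N * A ^ (w + 1) ≤ (4 * Ew.card) * A ^ (w + 1) := Nat.mul_le_mul_right _ hEw4
          _ = 4 * (Ew.card * A ^ (w + 1)) := by ring
          _ ≤ 4 * (L.length * (((w + 1) * K ^ w) ^ 2 * (M ^ (w + 1) * N))) :=
              Nat.mul_le_mul_left _ hEw
          _ = _ := by ring
      exact Nat.le_of_mul_le_mul_left h4 hNpos
    have hMpos : 0 < M := by
      rcases Nat.eq_zero_or_pos M with h0 | h0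
      · rw [h0, zero_pow (by omega), mul_zero, mul_zero, mul_zero] at h3
        have : 0 < A ^ (w + 1) := by positivity
        omega
      · exact h0
    have h4 : 4 * (L.length * (((w + 1) * K ^ w) ^ 2 * M ^ (w + 1))) < A ^ (w + 1) := by
      have h5 : w + 1 ≤ 2 ^ w := Nat.lt_two_pow_self
      have h6 : (w + 1) ^ 2 ≤ 4 ^ w := by
        calc (w + 1) ^ 2 ≤ (2 ^ w) ^ 2 := Nat.pow_le_pow_left h5 2
          _ = 4 ^ w := by rw [← pow_mul, mul_comm, pow_mul]; norm_num
      have hM4 : 4 * M ≤ A := by
        refine le_trans ?_ h2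
        have : M ≤ K ^ 2 * M := Nat.le_mul_of_pos_left _ (by positivity)
        nlinarith
      calc 4 * (L.length * (((w + 1) * K ^ w) ^ 2 * M ^ (w + 1)))
          < 4 * (2 ^ w * (((w + 1) * K ^ w) ^ 2 * M ^ (w + 1))) := by
            apply Nat.mul_lt_mul_of_pos_left _ (by norm_num)
            apply Nat.mul_lt_mul_of_pos_right hlen
            positivity
        _ = 4 * (2 ^ w * ((w + 1) ^ 2 * (K ^ 2) ^ w * (M ^ w * M))) := by ring
        _ ≤ 4 * (2 ^ w * (4 ^ w * (K ^ 2) ^ w * (M ^ w * M))) := by gcongr
        _ = (2 * 4 * K ^ 2 * M) ^ w * (4 * M) := by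
            have e1 : (2 * 4 * K ^ 2 * M) ^ w = 2 ^ w * 4 ^ w * (K ^ 2) ^ w * M ^ w := by
              rw [mul_pow, mul_pow, mul_pow]
            rw [e1]
            generalize 2 ^ w = a1
            generalize 4 ^ w = a2
            generalize (K ^ 2) ^ w = a3
            generalize M ^ w = a4
            ring
        _ ≤ A ^ w * A := by
            apply Nat.mul_le_mul _ hM4
            apply Nat.pow_le_pow_left
            exact h2
        _ = A ^ (w + 1) := by ring
    omega

end Approx

end Pool.Agent.Helper80K3
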