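import Mathlib

/-!
Circuits with conjunctions, disjunctions and free negations, and their number.
-/

namespace Pool.Agent.Helper80K3

open Finset

/-- The functions available to a circuit: the input variables, the functions computed so far,
and the negations of these. -/
def Av {n : ℕ} (L : List ((Fin n → Bool) → Bool)) (a : (Fin n → Bool) → Bool) : Prop :=
  ∃ c : Bool, (∃ g ∈ L, a = fun x => xor c (g x)) ∨ ∃ i, a = fun x => xor c (x i)

/-- Circuits as lists of functions, each of which is the conjunction or the disjunction of two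
available functions; negations are free and there are no constants. -/
inductive Circ {n : ℕ} : List ((Fin n → Bool) → Bool) → Prop
  | nil : Circ []
  | and {L : List ((Fin n → Bool) → Bool)} {a b : (Fin n → Bool) → Bool} :
      Circ L → Av L a → Av L b → Circ ((fun x => a x && b x) :: L)
  | or {L : List ((Fin n → Bool) → Bool)} {a b : (Fin n → Bool) → Bool} :
      Circ L → Av L a → Av L b → Circ ((fun x => a x || b x) :: L)

/-- The function `g` is computed by a circuit with at most `s` gates. -/
def HasSize {n : ℕ} (g : (Fin n → Bool) → Bool) (s : ℕ) : Prop :=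
  ∃ L, Circ L ∧ L.length ≤ s ∧ Av L g

section Compose

variable {n : ℕ} {L L' : List ((Fin n → Bool) → Bool)} {a b : (Fin n → Bool) → Bool}

theorem Av.mono (h : Av L a) (hL : L ⊆ L') : Av L' a := by
  obtain ⟨c, ⟨g, hg, rfl⟩ | h⟩ := h
  · exact ⟨c, Or.inl ⟨g, hL hg, rfl⟩⟩
  · exact ⟨c, Or.inr h⟩

theorem Av.of_mem (h : a ∈ L) : Av L a := ⟨false, Or.inl ⟨a, h, by funext x; simp⟩⟩

theorem Av.var (i : Fin n) : Av L (fun x => x i) := ⟨false, Or.inr ⟨i, by funext x; simp⟩⟩

theorem Av.xor_const (h : Av L a) (d : Bool) : Av L (fun x => xor d (a x)) := by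
  obtain ⟨c, ⟨g, hg, rfl⟩ | ⟨i, rfl⟩⟩ := h
  · exact ⟨xor d c, Or.inl ⟨g, hg, by funext x; simp⟩⟩
  · exact ⟨xor d c, Or.inr ⟨i, by funext x; simp⟩⟩

/-- An extension of a circuit with `e` further gates. -/
def Ext (L L' : List ((Fin n → Bool) → Bool)) (e : ℕ) : Prop :=
  Circ L' ∧ L ⊆ L' ∧ L'.length ≤ L.length + e

theorem Ext.refl (h : Circ L) : Ext L L 0 := ⟨h, List.Subset.refl _, le_refl _⟩

theorem Ext.trans {L'' : List ((Fin n → Bool) → Bool)} {e e' : ℕ} (h : Ext L L' e)
    (h' : Ext L' L'' e') : Ext L L'' (e + e') :=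
  ⟨h'.1, List.Subset.trans h.2.1 h'.2.1, by have := h.2.2; have := h'.2.2; omega⟩

theorem Ext.mono {e e' : ℕ} (h : Ext L L' e) (he : e ≤ e') : Ext L L' e' :=
  ⟨h.1, h.2.1, by have := h.2.2; omega⟩

theorem ext_and (hL : Circ L) (ha : Av L a) (hb : Av L b) :
    ∃ L', Ext L L' 1 ∧ Av L' (fun x => a x && b x) :=
  ⟨(fun x => a x && b x) :: L, ⟨Circ.and hL ha hb, List.subset_cons_self _ _, le_refl _⟩,
    Av.of_mem List.mem_cons_self⟩

theorem ext_or (hL : Circ L) (ha : Av L a) (hb : Av L b) :
    ∃ L', Ext L L' 1 ∧ Av L' (fun x => a x || b x) :=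
  ⟨(fun x => a x || b x) :: L, ⟨Circ.or hL ha hb, List.subset_cons_self _ _, le_refl _⟩,
    Av.of_mem List.mem_cons_self⟩

theorem ext_xor (hL : Circ L) (ha : Av L a) (hb : Av L b) :
    ∃ L', Ext L L' 3 ∧ Av L' (fun x => xor (a x) (b x)) := by
  obtain ⟨L1, h1, h1'⟩ := ext_and hL ha hb
  obtain ⟨L2, h2, h2'⟩ := ext_or h1.1 (ha.mono h1.2.1) (hb.mono h1.2.1)
  obtain ⟨L3, h3, h3'⟩ := ext_and h2.1 h2' ((h1'.mono h2.2.1).xor_const true)
  refine ⟨L3, ((h1.trans h2).trans h3).mono (by norm_num), ?_⟩
  convert h3' using 1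
  funext x
  cases a x <;> cases b x <;> rfl

/-- The sum modulo two of the functions with indices in `I`. -/
def xsum {ι : Type} (I : Finset ι) (f : ι → (Fin n → Bool) → Bool) (x : Fin n → Bool) : Bool :=
  decide ((I.filter (fun i => f i x = true)).card % 2 = 1)

theorem xsum_insert {ι : Type} [DecidableEq ι] (I : Finset ι) (i : ι) (hi : i ∉ I)
    (f : ι → (Fin n → Bool) → Bool) (x : Fin n → Bool) :
    xsum (insert i I) f x = xor (xsum I f x) (f i x) := by
  unfold xsum
  rw [Finset.filter_insert]
  split_ifs with h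
  · rw [Finset.card_insert_of_notMem (fun h' => hi (Finset.mem_filter.mp h').1), h]
    rcases Nat.mod_two_eq_zero_or_one (I.filter (fun i => f i x = true)).card with h1 | h1
    · simp [Nat.add_mod, h1]
    · simp [Nat.add_mod, h1]
  · rw [Bool.not_eq_true] at h
    rw [h]
    simp

/-- The constant false is available after one gate. -/
theorem ext_false (hn : 0 < n) (hL : Circ L) :
    ∃ L', Ext L L' 1 ∧ Av L' (fun _ => false) := by
  obtain ⟨L', h, h'⟩ := ext_and hL (Av.var ⟨0, hn⟩)
    ((Av.var (L := L) (⟨0, hn⟩ : Fin n)).xor_const true)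
  refine ⟨L', h, ?_⟩
  convert h' using 1
  funext x
  cases x ⟨0, hn⟩ <;> rfl

/-- Sums of products of available functions. -/
theorem ext_xsum {ι : Type} (I : Finset ι) (f g : ι → (Fin n → Bool) → Bool)
    (hL : Circ L) (h0 : Av L (fun _ => false)) (hf : ∀ i ∈ I, Av L (f i))
    (hg : ∀ i ∈ I, Av L (g i)) :
    ∃ L', Ext L L' (4 * I.card) ∧ Av L' (xsum I (fun i x => f i x && g i x)) := by
  classical
  induction I using Finset.induction_on with
  | empty =>
    refine ⟨L, (Ext.refl hL).mono (by simp), ?_⟩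
    convert h0 using 1
    funext x
    simp [xsum]
  | insert i I hi ih =>
    obtain ⟨L1, h1, h1'⟩ := ih (fun i hi => hf i (Finset.mem_insert_of_mem hi))
      (fun i hi => hg i (Finset.mem_insert_of_mem hi))
    obtain ⟨L2, h2, h2'⟩ := ext_and h1.1
      ((hf i (Finset.mem_insert_self _ _)).mono h1.2.1)
      ((hg i (Finset.mem_insert_self _ _)).mono h1.2.1)
    obtain ⟨L3, h3, h3'⟩ := ext_xor h2.1 (h1'.mono h2.2.1) h2'
    refine ⟨L3, ((h1.trans h2).trans h3).mono ?_, ?_⟩
    · rw [Finset.card_insert_of_notMem hi]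
      omega
    · convert h3' using 1
      funext x
      exact xsum_insert I i hi _ x

/-- Several extensions. -/
theorem ext_many {ι : Type} (I : Finset ι) (f : ι → (Fin n → Bool) → Bool) (e : ℕ)
    (hL : Circ L)
    (h : ∀ i ∈ I, ∀ L', Circ L' → L ⊆ L' → ∃ L'', Ext L' L'' e ∧ Av L'' (f i)) :
    ∃ L', Ext L L' (I.card * e) ∧ ∀ i ∈ I, Av L' (f i) := by
  classical
  induction I using Finset.induction_on with
  | empty => exact ⟨L, (Ext.refl hL).mono (Nat.zero_le _), fun i hi => absurd hi
      (Finset.notMem_empty _)⟩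
  | insert i I hi ih =>
    obtain ⟨L1, h1, h1'⟩ := ih (fun i hi => h i (Finset.mem_insert_of_mem hi))
    obtain ⟨L2, h2, h2'⟩ := h i (Finset.mem_insert_self _ _) L1 h1.1 h1.2.1
    refine ⟨L2, (h1.trans h2).mono ?_, ?_⟩
    · rw [Finset.card_insert_of_notMem hi]
      apply le_of_eq
      ring
    · intro j hj
      rcases Finset.mem_insert.mp hj with rfl | hj
      · exact h2'
      · exact (h1' j hj).mono h2.2.1

end Compose

/-! ### Counting -/

section Count

variable {n : ℕ}

open Classical in
/-- The available functions as a finite set. -/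
noncomputable def avF (L : List ((Fin n → Bool) → Bool)) : Finset ((Fin n → Bool) → Bool) :=
  ((univ : Finset Bool) ×ˢ (L.toFinset ∪ univ.image (fun (i : Fin n) (x : Fin n → Bool) => x i))).image
    (fun p => fun x => xor p.1 (p.2 x))

theorem mem_avF {L : List ((Fin n → Bool) → Bool)} {a : (Fin n → Bool) → Bool} (h : Av L a) :
    a ∈ avF L := by
  classical
  unfold avF
  rw [Finset.mem_image]
  obtain ⟨c, ⟨g, hg, rfl⟩ | ⟨i, rfl⟩⟩ := h
  · refine ⟨(c, g), ?_, rfl⟩
    rw [Finset.mem_product]
    refine ⟨Finset.mem_univ _, ?_⟩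
    simp only [Finset.mem_union, List.mem_toFinset]
    exact Or.inl hg
  · refine ⟨(c, fun x => x i), ?_, rfl⟩
    rw [Finset.mem_product]
    refine ⟨Finset.mem_univ _, ?_⟩
    simp only [Finset.mem_union, Finset.mem_image]
    exact Or.inr ⟨i, Finset.mem_univ _, rfl⟩

theorem card_avF (L : List ((Fin n → Bool) → Bool)) : (avF L).card ≤ 2 * (L.length + n) := by
  classical
  unfold avF
  refine Finset.card_image_le.trans ?_
  rw [Finset.card_product, Finset.card_univ, Fintype.card_bool]
  apply Nat.mul_le_mul_left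
  refine (Finset.card_union_le _ _).trans ?_
  apply Nat.add_le_add
  · exact List.toFinset_card_le _
  · refine Finset.card_image_le.trans ?_
    simp

open Classical in
/-- The circuits with a given number of gates. -/
noncomputable def circF (n : ℕ) : ℕ → Finset (List ((Fin n → Bool) → Bool))
  | 0 => {[]}
  | l + 1 => (circF n l).biUnion (fun L => ((univ : Finset Bool) ×ˢ (avF L ×ˢ avF L)).image
      (fun p => (fun x => if p.1 then (p.2.1 x && p.2.2 x) else (p.2.1 x || p.2.2 x)) :: L))

theorem length_circF {l : ℕ} {L : List ((Fin n → Bool) → Bool)} (h : L ∈ circF n l) :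
    L.length = l := by
  classical
  induction l generalizing L with
  | zero =>
    unfold circF at h
    rw [Finset.mem_singleton] at h
    rw [h]
    rfl
  | succ l ih =>
    unfold circF at h
    rw [Finset.mem_biUnion] at h
    obtain ⟨L', hL', h⟩ := h
    obtain ⟨p, _, rfl⟩ := Finset.mem_image.mp h
    rw [List.length_cons, ih hL']

theorem mem_circF {L : List ((Fin n → Bool) → Bool)} (h : Circ L) : L ∈ circF n L.length := by
  classical
  induction h with
  | nil => simp [circF]
  | @and L a b _ ha hb ih =>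
    rw [List.length_cons]
    unfold circF
    rw [Finset.mem_biUnion]
    refine ⟨L, ih, ?_⟩
    rw [Finset.mem_image]
    refine ⟨(true, a, b), ?_, ?_⟩
    · rw [Finset.mem_product, Finset.mem_product]
      exact ⟨Finset.mem_univ _, mem_avF ha, mem_avF hb⟩
    · simp
  | @or L a b _ ha hb ih =>
    rw [List.length_cons]
    unfold circF
    rw [Finset.mem_biUnion]
    refine ⟨L, ih, ?_⟩
    rw [Finset.mem_image]
    refine ⟨(false, a, b), ?_, ?_⟩
    · rw [Finset.mem_product, Finset.mem_product]
      exact ⟨Finset.mem_univ _, mem_avF ha, mem_avF hb⟩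
    · simp

theorem card_circF (l : ℕ) : (circF n l).card ≤ (8 * (l + n) ^ 2) ^ l := by
  classical
  induction l with
  | zero => simp [circF]
  | succ l ih =>
    unfold circF
    refine Finset.card_biUnion_le.trans ?_
    have h1 : ∀ L ∈ circF n l, (((univ : Finset Bool) ×ˢ (avF L ×ˢ avF L)).image
      (fun p => (fun x => if p.1 then (p.2.1 x && p.2.2 x) else (p.2.1 x || p.2.2 x)) :: L)).card ≤
        8 * (l + n) ^ 2 := by
      intro L hL
      refine Finset.card_image_le.trans ?_
      rw [Finset.card_product, Finset.card_product, Finset.card_univ, Fintype.card_bool]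
      have h2 := card_avF L
      rw [length_circF hL] at h2
      calc 2 * ((avF L).card * (avF L).card) ≤ 2 * ((2 * (l + n)) * (2 * (l + n))) := by gcongr
        _ = 8 * (l + n) ^ 2 := by ring
    refine (Finset.sum_le_card_nsmul _ _ _ h1).trans ?_
    rw [smul_eq_mul]
    calc (circF n l).card * (8 * (l + n) ^ 2) ≤ (8 * (l + n) ^ 2) ^ l * (8 * (l + n) ^ 2) :=
          Nat.mul_le_mul_right _ ih
      _ = (8 * (l + n) ^ 2) ^ (l + 1) := (pow_succ _ _).symm
      _ ≤ (8 * (l + 1 + n) ^ 2) ^ (l + 1) := by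
          apply Nat.pow_le_pow_left
          apply Nat.mul_le_mul_left
          apply Nat.pow_le_pow_left
          omega

open Classical in
/-- The functions of circuit size at most `s`, and perhaps some more. -/
noncomputable def easyF (n s : ℕ) : Finset ((Fin n → Bool) → Bool) :=
  (range (s + 1)).biUnion (fun l => (circF n l).biUnion avF)

theorem mem_easyF {s : ℕ} {g : (Fin n → Bool) → Bool} (h : HasSize g s) : g ∈ easyF n s := by
  classical
  obtain ⟨L, hL, hs, hg⟩ := h
  unfold easyF
  rw [Finset.mem_biUnion]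
  refine ⟨L.length, Finset.mem_range.mpr (by omega), ?_⟩
  rw [Finset.mem_biUnion]
  exact ⟨L, mem_circF hL, mem_avF hg⟩

theorem card_easyF (hn : 0 < n) (s : ℕ) : (easyF n s).card ≤ (8 * (s + n) ^ 2) ^ (s + 1) := by
  classical
  unfold easyF
  refine Finset.card_biUnion_le.trans ?_
  have h1 : ∀ l ∈ range (s + 1), ((circF n l).biUnion avF).card ≤
      (8 * (s + n) ^ 2) ^ s * (2 * (s + n)) := by
    intro l hl
    rw [Finset.mem_range] at hl
    refine Finset.card_biUnion_le.trans ?_
    have h2 : ∀ L ∈ circF n l, (avF L).card ≤ 2 * (s + n) := by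
      intro L hL
      have := card_avF L
      rw [length_circF hL] at this
      omega
    refine (Finset.sum_le_card_nsmul _ _ _ h2).trans ?_
    rw [smul_eq_mul]
    apply Nat.mul_le_mul_right
    refine (card_circF l).trans ?_
    calc (8 * (l + n) ^ 2) ^ l ≤ (8 * (s + n) ^ 2) ^ l := by
          apply Nat.pow_le_pow_left
          apply Nat.mul_le_mul_left
          apply Nat.pow_le_pow_left
          omega
      _ ≤ (8 * (s + n) ^ 2) ^ s := by
          apply Nat.pow_le_pow_right
          · positivity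
          · omega
  refine (Finset.sum_le_card_nsmul _ _ _ h1).trans ?_
  rw [Finset.card_range, smul_eq_mul]
  calc (s + 1) * ((8 * (s + n) ^ 2) ^ s * (2 * (s + n)))
      = (8 * (s + n) ^ 2) ^ s * ((s + 1) * (2 * (s + n))) := by ring
    _ ≤ (8 * (s + n) ^ 2) ^ s * (8 * (s + n) ^ 2) := by
        apply Nat.mul_le_mul_left
        nlinarith
    _ = _ := (pow_succ _ _).symm

end Count

end Pool.Agent.Helper80K3
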