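import Pool.Agent.Helper80K3.Moment

/-!
Closed families of partial functions.
-/

namespace Pool.Agent.Helper80K3

open Finset

variable {X : Type} [DecidableEq X] {Ω : Type}

/-- From spread families to the weight condition. -/
theorem spread_wt (𝒮 : Finset (Finset (X × Bool))) (hc : ∀ S ∈ 𝒮, Cons S) (κ : ℕ) (hκ : 0 < κ)
    (hsp : ∀ R : Finset (X × Bool), R.Nonempty →
      (𝒮.filter (fun S => R ⊆ S)).card * (4 * κ) ^ R.card ≤ 𝒮.card)
    (V : Finset X) (hV : 256 * V.card ≤ κ) :
    ∑ S ∈ 𝒮, wt V (pts S) ≤ 2 * 𝒮.card := by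
  classical
  have hκ' : (0 : ℝ) < κ := by exact_mod_cast hκ
  -- points instead of labelled points
  have h1 : ∀ T : Finset X, T.Nonempty →
      ((𝒮.filter (fun S => T ⊆ pts S)).card : ℝ) ≤ 𝒮.card * (1 / (κ : ℝ)) ^ T.card := by
    intro T hT
    have hsub : 𝒮.filter (fun S => T ⊆ pts S) ⊆
        ((T ×ˢ (univ : Finset Bool)).powersetCard T.card).biUnion
          (fun R => 𝒮.filter (fun S => R ⊆ S)) := by
      intro S hS
      rw [Finset.mem_filter] at hS
      rw [Finset.mem_biUnion]
      refine ⟨S.filter (fun e => e.1 ∈ T), ?_, ?_⟩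
      · rw [Finset.mem_powersetCard]
        refine ⟨?_, ?_⟩
        · intro e he
          rw [Finset.mem_filter] at he
          rw [Finset.mem_product]
          exact ⟨he.2, Finset.mem_univ _⟩
        · have hcons : Cons (S.filter (fun e => e.1 ∈ T)) :=
            (hc S hS.1).mono (Finset.filter_subset _ _)
          rw [← hcons.card_pts]
          congr 1
          ext x
          simp only [pts, Finset.mem_image, Finset.mem_filter]
          constructor
          · rintro ⟨e, ⟨_, he⟩, rfl⟩
            exact he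
          · intro hx
            obtain ⟨e, he, rfl⟩ := Finset.mem_image.mp (hS.2 hx)
            exact ⟨e, ⟨he, hx⟩, rfl⟩
      · rw [Finset.mem_filter]
        exact ⟨hS.1, Finset.filter_subset _ _⟩
    have h2 := (Finset.card_le_card hsub).trans Finset.card_biUnion_le
    have h3 : (𝒮.filter (fun S => T ⊆ pts S)).card * (4 * κ) ^ T.card ≤
        4 ^ T.card * 𝒮.card := by
      calc (𝒮.filter (fun S => T ⊆ pts S)).card * (4 * κ) ^ T.card
          ≤ (∑ R ∈ (T ×ˢ (univ : Finset Bool)).powersetCard T.card,
              (𝒮.filter (fun S => R ⊆ S)).card) * (4 * κ) ^ T.card :=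
            Nat.mul_le_mul_right _ h2
        _ = ∑ R ∈ (T ×ˢ (univ : Finset Bool)).powersetCard T.card,
              (𝒮.filter (fun S => R ⊆ S)).card * (4 * κ) ^ T.card := by
            rw [Finset.sum_mul]
        _ ≤ ∑ _R ∈ (T ×ˢ (univ : Finset Bool)).powersetCard T.card, 𝒮.card := by
            apply Finset.sum_le_sum
            intro R hR
            rw [Finset.mem_powersetCard] at hR
            rw [← hR.2]
            apply hsp
            rw [← Finset.card_pos, hR.2]
            exact hT.card_pos
        _ = ((T ×ˢ (univ : Finset Bool)).powersetCard T.card).card * 𝒮.card := by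
            rw [Finset.sum_const, smul_eq_mul]
        _ ≤ 4 ^ T.card * 𝒮.card := by
            apply Nat.mul_le_mul_right
            rw [Finset.card_powersetCard]
            refine (Nat.choose_le_two_pow _ _).trans ?_
            rw [Finset.card_product]
            simp only [Finset.card_univ, Fintype.card_bool]
            rw [Nat.mul_comm, pow_mul]
            norm_num
    have h4 : ((𝒮.filter (fun S => T ⊆ pts S)).card : ℝ) * (4 * κ) ^ T.card ≤
        4 ^ T.card * 𝒮.card := by exact_mod_cast h3
    rw [mul_pow] at h4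
    have h5 : (0 : ℝ) < 4 ^ T.card := by positivity
    have h6 : (0 : ℝ) < (κ : ℝ) ^ T.card := by positivity
    have h7 : ((𝒮.filter (fun S => T ⊆ pts S)).card : ℝ) * κ ^ T.card ≤ 𝒮.card := by
      have : 4 ^ T.card * (((𝒮.filter (fun S => T ⊆ pts S)).card : ℝ) * κ ^ T.card) ≤
          4 ^ T.card * 𝒮.card := by
        calc _ = ((𝒮.filter (fun S => T ⊆ pts S)).card : ℝ) * (4 ^ T.card * κ ^ T.card) := by ring
          _ ≤ _ := h4
      exact le_of_mul_le_mul_left this h5
    rw [one_div, inv_pow, ← div_eq_mul_inv, le_div_iff₀ h6]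
    exact h7
  -- pointwise bound for the weight
  have h2 : ∀ S ∈ 𝒮, wt V (pts S) ≤ 1 + 128 * ∑ T ∈ V.powerset.erase ∅,
      (if T ⊆ pts S then (1 : ℝ) else 0) := by
    intro S _
    have hsum : ∑ T ∈ V.powerset.erase ∅, (if T ⊆ pts S then (1 : ℝ) else 0) =
        2 ^ (pts S ∩ V).card - 1 := by
      have h3 : ∑ T ∈ V.powerset, (if T ⊆ pts S then (1 : ℝ) else 0) =
          2 ^ (pts S ∩ V).card := by
        rw [← Finset.sum_filter, Finset.sum_const, nsmul_eq_mul, mul_one]
        have : V.powerset.filter (fun T => T ⊆ pts S) = (pts S ∩ V).powerset := by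
          ext T
          rw [Finset.mem_filter, Finset.mem_powerset, Finset.mem_powerset,
            Finset.subset_inter_iff]
          exact and_comm
        rw [this, Finset.card_powerset]
        push_cast
        rfl
      have h4 := Finset.add_sum_erase V.powerset
        (fun T => if T ⊆ pts S then (1 : ℝ) else 0) (Finset.empty_mem_powerset V)
      simp only [Finset.empty_subset, if_true] at h4
      linarith
    rw [hsum]
    unfold wt
    split_ifs with h
    · have hpos : 1 ≤ (pts S ∩ V).card := h.card_pos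
      have h5 : (2 : ℝ) ^ 1 ≤ 2 ^ (pts S ∩ V).card := pow_le_pow_right₀ (by norm_num) hpos
      linarith
    · rw [Finset.not_nonempty_iff_eq_empty] at h
      rw [h]
      norm_num
  -- the sum over the subsets of V
  have h3 : ∑ T ∈ V.powerset.erase ∅, (1 / (κ : ℝ)) ^ T.card ≤ 1 / 128 := by
    have h4 : ∑ T ∈ V.powerset, (1 / (κ : ℝ)) ^ T.card = (1 / (κ : ℝ) + 1) ^ V.card := by
      rw [← Finset.sum_pow_mul_eq_add_pow]
      refine Finset.sum_congr rfl fun T _ => ?_
      rw [one_pow, mul_one]
    have h5 := Finset.add_sum_erase V.powerset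
      (fun T => (1 / (κ : ℝ)) ^ T.card) (Finset.empty_mem_powerset V)
    simp only [Finset.card_empty, pow_zero] at h5
    have h6 : (1 / (κ : ℝ) + 1) ^ V.card ≤ 1 + 1 / 128 := by
      set t : ℝ := 1 / (κ : ℝ) with ht
      have ht0 : 0 < t := by positivity
      have hVt : (V.card : ℝ) * t ≤ 1 / 256 := by
        rw [ht, mul_one_div, div_le_div_iff₀ hκ' (by norm_num)]
        have : (256 : ℝ) * V.card ≤ κ := by exact_mod_cast hV
        linarith
      have ht1 : t ≤ 1 := by
        rw [ht, div_le_one hκ']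
        exact_mod_cast hκ
      have hb : 1 + (V.card : ℝ) * (-t) ≤ (1 + (-t)) ^ V.card :=
        one_add_mul_le_pow (by linarith) _
      have hprod : (t + 1) ^ V.card * (1 + (-t)) ^ V.card ≤ 1 := by
        rw [← mul_pow]
        apply pow_le_one₀
        · nlinarith
        · nlinarith
      have hpos : (0 : ℝ) < (t + 1) ^ V.card := by positivity
      have h7 : (t + 1) ^ V.card * (1 - 1 / 256) ≤ 1 := by
        calc (t + 1) ^ V.card * (1 - 1 / 256) ≤ (t + 1) ^ V.card * (1 + (-t)) ^ V.card := by
              apply mul_le_mul_of_nonneg_left _ hpos.le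
              linarith
          _ ≤ 1 := hprod
      nlinarith
    linarith
  calc ∑ S ∈ 𝒮, wt V (pts S)
      ≤ ∑ S ∈ 𝒮, (1 + 128 * ∑ T ∈ V.powerset.erase ∅, (if T ⊆ pts S then (1 : ℝ) else 0)) :=
        Finset.sum_le_sum h2
    _ = 𝒮.card + 128 * ∑ T ∈ V.powerset.erase ∅,
          ((𝒮.filter (fun S => T ⊆ pts S)).card : ℝ) := by
        rw [Finset.sum_add_distrib, ← Finset.mul_sum, Finset.sum_comm]
        congr 1
        · simp
        · congr 1
          refine Finset.sum_congr rfl fun T _ => ?_
          rw [← Finset.sum_filter, Finset.sum_const, nsmul_eq_mul, mul_one]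
    _ ≤ 𝒮.card + 128 * ∑ T ∈ V.powerset.erase ∅, (𝒮.card * (1 / (κ : ℝ)) ^ T.card) := by
        gcongr with T hT
        apply h1
        rw [Finset.mem_erase] at hT
        exact Finset.nonempty_iff_ne_empty.mpr hT.1
    _ = 𝒮.card + 128 * 𝒮.card * ∑ T ∈ V.powerset.erase ∅, (1 / (κ : ℝ)) ^ T.card := by
        rw [← Finset.mul_sum]; ring
    _ ≤ 𝒮.card + 128 * 𝒮.card * (1 / 128) := by
        gcongr
    _ = 2 * 𝒮.card := by ring

section Closed

variable [Fintype X] [Fintype Ω]

/-- The partial functions with at most `w` points. -/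
def Tm (X : Type) [DecidableEq X] [Fintype X] (w : ℕ) : Finset (Finset (X × Bool)) :=
  univ.filter (fun S => S.card ≤ w ∧ Cons S)

omit [Fintype Ω] in
theorem mem_Tm {w : ℕ} {S : Finset (X × Bool)} : S ∈ Tm X w ↔ S.card ≤ w ∧ Cons S := by
  simp [Tm]

/-- The number of functions which extend `Y` but no member of `D`. -/
def badc (F : Ω → X → Bool) (D : Finset (Finset (X × Bool))) (Y : Finset (X × Bool)) : ℕ :=
  ((univ : Finset Ω).filter (fun ω => Sat F ω Y ∧ ∀ S ∈ D, ¬ Sat F ω S)).card

/-- Closed families. -/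
def Clsd (F : Ω → X → Bool) (w q : ℕ) (D : Finset (Finset (X × Bool))) : Prop :=
  D ⊆ Tm X w ∧ ∀ Y ∈ Tm X w, badc F D Y * 2 ^ q ≤ Nx F univ Y → Y ∈ D

variable {F : Ω → X → Bool} {w q : ℕ}

theorem Clsd.up {D : Finset (Finset (X × Bool))} (h : Clsd F w q D) {S Y : Finset (X × Bool)}
    (hS : S ∈ D) (hSY : S ⊆ Y) (hY : Y ∈ Tm X w) : Y ∈ D := by
  apply h.2 Y hY
  have : badc F D Y = 0 := by
    unfold badc
    rw [Finset.card_eq_zero, Finset.filter_eq_empty_iff]
    rintro ω _ ⟨h1, h2⟩
    exact h2 S hS (fun e he => h1 e (hSY he))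
  rw [this, zero_mul]
  exact Nat.zero_le _

theorem badc_anti {D D' : Finset (Finset (X × Bool))} (h : D ⊆ D') (Y : Finset (X × Bool)) :
    badc F D' Y ≤ badc F D Y := by
  unfold badc
  apply Finset.card_le_card
  intro ω hω
  rw [Finset.mem_filter] at hω ⊢
  exact ⟨hω.1, hω.2.1, fun S hS => hω.2.2 S (h hS)⟩

theorem Clsd.inter {D D' : Finset (Finset (X × Bool))} (h : Clsd F w q D)
    (h' : Clsd F w q D') : Clsd F w q (D ∩ D') := by
  refine ⟨Finset.inter_subset_left.trans h.1, ?_⟩
  intro Y hY hb
  rw [Finset.mem_inter]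
  constructor
  · apply h.2 Y hY
    exact (Nat.mul_le_mul_right _ (badc_anti Finset.inter_subset_left Y)).trans hb
  · apply h'.2 Y hY
    exact (Nat.mul_le_mul_right _ (badc_anti Finset.inter_subset_right Y)).trans hb

/-- Every family is contained in a closed family with a small error. -/
theorem exists_closure : ∀ (N : ℕ) (D : Finset (Finset (X × Bool))), D ⊆ Tm X w →
    (Tm X w).card ≤ N + D.card → ∃ D', D ⊆ D' ∧ Clsd F w q D' ∧
      ((univ : Finset Ω).filter (fun ω => (∃ Y ∈ D', Sat F ω Y) ∧ ∀ S ∈ D, ¬ Sat F ω S)).card *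
        2 ^ q ≤ N * Fintype.card Ω := by
  classical
  intro N
  induction N with
  | zero =>
    intro D hD hN
    have hDT : D = Tm X w := Finset.eq_of_subset_of_card_le hD (by omega)
    refine ⟨D, subset_rfl, ⟨hD, fun Y hY _ => hDT ▸ hY⟩, ?_⟩
    have : (univ : Finset Ω).filter (fun ω => (∃ Y ∈ D, Sat F ω Y) ∧ ∀ S ∈ D, ¬ Sat F ω S) =
        ∅ := by
      rw [Finset.filter_eq_empty_iff]
      rintro ω _ ⟨⟨Y, hY, h⟩, h2⟩
      exact h2 Y hY h
    rw [this]
    simp
  | succ N ih =>
    intro D hD hN
    by_cases hcl : Clsd F w q D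
    · refine ⟨D, subset_rfl, hcl, ?_⟩
      have : (univ : Finset Ω).filter (fun ω => (∃ Y ∈ D, Sat F ω Y) ∧ ∀ S ∈ D, ¬ Sat F ω S) =
          ∅ := by
        rw [Finset.filter_eq_empty_iff]
        rintro ω _ ⟨⟨Y, hY, h⟩, h2⟩
        exact h2 Y hY h
      rw [this]
      simp
    · have hex : ∃ Y ∈ Tm X w, badc F D Y * 2 ^ q ≤ Nx F univ Y ∧ Y ∉ D := by
        by_contra hcon
        push Not at hcon
        exact hcl ⟨hD, hcon⟩
      obtain ⟨Y, hY, hb, hYD⟩ := hex
      have hD1 : insert Y D ⊆ Tm X w := Finset.insert_subset hY hD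
      have hcard : (insert Y D).card = D.card + 1 := Finset.card_insert_of_notMem hYD
      obtain ⟨D', hDD', hcl', herr⟩ := ih (insert Y D) hD1 (by omega)
      refine ⟨D', (Finset.subset_insert _ _).trans hDD', hcl', ?_⟩
      have hsub : (univ : Finset Ω).filter
          (fun ω => (∃ Y ∈ D', Sat F ω Y) ∧ ∀ S ∈ D, ¬ Sat F ω S) ⊆
          (univ : Finset Ω).filter
          (fun ω => (∃ Y ∈ D', Sat F ω Y) ∧ ∀ S ∈ insert Y D, ¬ Sat F ω S) ∪
          (univ : Finset Ω).filter (fun ω => Sat F ω Y ∧ ∀ S ∈ D, ¬ Sat F ω S) := by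
        intro ω hω
        rw [Finset.mem_filter] at hω
        rw [Finset.mem_union, Finset.mem_filter, Finset.mem_filter]
        by_cases hs : Sat F ω Y
        · right
          exact ⟨hω.1, hs, hω.2.2⟩
        · left
          refine ⟨hω.1, hω.2.1, ?_⟩
          intro S hS
          rcases Finset.mem_insert.mp hS with rfl | hS
          · exact hs
          · exact hω.2.2 S hS
      have h1 := (Finset.card_le_card hsub).trans (Finset.card_union_le _ _)
      have h2 : badc F D Y * 2 ^ q ≤ Fintype.card Ω := by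
        refine hb.trans ?_
        unfold Nx
        exact Finset.card_le_univ _
      unfold badc at h2
      calc _ ≤ (((univ : Finset Ω).filter
          (fun ω => (∃ Y ∈ D', Sat F ω Y) ∧ ∀ S ∈ insert Y D, ¬ Sat F ω S)).card +
          ((univ : Finset Ω).filter (fun ω => Sat F ω Y ∧ ∀ S ∈ D, ¬ Sat F ω S)).card) *
            2 ^ q := Nat.mul_le_mul_right _ h1
        _ ≤ N * Fintype.card Ω + Fintype.card Ω := by
            rw [Nat.add_mul]
            exact Nat.add_le_add herr h2
        _ = (N + 1) * Fintype.card Ω := by ring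

/-- Minimal members of size `j`. -/
def mins (D : Finset (Finset (X × Bool))) (j : ℕ) : Finset (Finset (X × Bool)) :=
  D.filter (fun S => S.card = j ∧ ∀ T ∈ D, T ⊆ S → T = S)

/-- Conditional uniformity. -/
theorem unif_cond {k k' : ℕ} (hU : UnifOff F (univ : Finset Ω) k ∅) {Y : Finset (X × Bool)}
    (hk : Y.card + k' ≤ k) (hY : Cons Y) :
    UnifOff F ((univ : Finset Ω).filter (fun ω => Sat F ω Y)) k' (pts Y) := by
  classical
  intro P β hP hd
  let T : Finset (X × Bool) := P.image (fun x => (x, β x))
  have hTc : Cons T := by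
    intro e he e' he' hee
    obtain ⟨x, _, rfl⟩ := Finset.mem_image.mp he
    obtain ⟨x', _, rfl⟩ := Finset.mem_image.mp he'
    simp only at hee
    subst hee
    rfl
  have hTp : pts T = P := by
    simp [T, pts, Finset.image_image, Function.comp_def]
  have hTcard : T.card = P.card := by rw [← hTc.card_pts, hTp]
  have h := Nx_union (F := F) (S := Y) hU hTc (by
      rw [hTp]
      refine (Finset.card_union_le _ _).trans ?_
      rw [hY.card_pts]
      omega) (Finset.disjoint_empty_right _) (by rw [hTp]; exact hd.symm)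
  unfold Nx at h
  rw [hTcard] at h
  have hset : ((univ : Finset Ω).filter (fun ω => Sat F ω Y)).filter
      (fun ω => ∀ x ∈ P, F ω x = β x) = (univ : Finset Ω).filter (fun ω => Sat F ω (Y ∪ T)) := by
    ext ω
    rw [Finset.mem_filter, Finset.mem_filter, Finset.mem_filter, sat_union]
    constructor
    · rintro ⟨⟨h0, h2⟩, h1⟩
      refine ⟨h0, h2, ?_⟩
      intro e he
      obtain ⟨x, hx, rfl⟩ := Finset.mem_image.mp he
      exact h1 x hx
    · rintro ⟨h0, h2, h1⟩
      exact ⟨⟨h0, h2⟩, fun x hx => h1 (x, β x) (Finset.mem_image_of_mem _ hx)⟩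
  have hset2 := congrArg Finset.card hset
  rw [← h, ← hset2]
  congr!

/-- The number of minimal members of a closed family. -/
theorem card_mins {m k : ℕ} (hm : Even m) (hmq : m = q + 1)
    (hU : UnifOff F (univ : Finset Ω) k ∅) (hk : (m + 1) * w ≤ k)
    {D : Finset (Finset (X × Bool))} (hD : Clsd F w q D) {j : ℕ} (hj : j ≤ w) :
    (mins D j).card ≤ (1024 * m * w) ^ j := by
  classical
  set K := 1024 * m * w with hK
  by_contra hcon
  push Not at hcon
  have hmem : ∀ S ∈ mins D j, S ∈ D ∧ S.card = j ∧ ∀ T ∈ D, T ⊆ S → T = S := by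
    intro S hS
    unfold mins at hS
    rw [Finset.mem_filter] at hS
    exact ⟨hS.1, hS.2.1, hS.2.2⟩
  set 𝒴 := (univ : Finset (Finset (X × Bool))).filter (fun Y => Y.card ≤ j ∧
    K ^ (j - Y.card) < ((mins D j).filter (fun S => Y ⊆ S)).card) with h𝒴
  have hne : 𝒴.Nonempty := by
    refine ⟨∅, ?_⟩
    rw [h𝒴, Finset.mem_filter]
    refine ⟨Finset.mem_univ _, by simp, ?_⟩
    simpa using hcon
  obtain ⟨Y, hY, hmax⟩ := Finset.exists_max_image 𝒴 Finset.card hne
  rw [h𝒴, Finset.mem_filter] at hY
  obtain ⟨_, hYj, hYK⟩ := hY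
  set 𝒮Y := (mins D j).filter (fun S => Y ⊆ S) with h𝒮Y
  have hYlt : Y.card < j := by
    rcases lt_or_eq_of_le hYj with h | h
    · exact h
    · exfalso
      have hsub : 𝒮Y ⊆ {Y} := by
        intro S hS
        rw [h𝒮Y, Finset.mem_filter] at hS
        rw [Finset.mem_singleton]
        exact (Finset.eq_of_subset_of_card_le hS.2 (by rw [(hmem S hS.1).2.1, h])).symm
      have := Finset.card_le_card hsub
      rw [h, Nat.sub_self, pow_zero] at hYK
      simp at this
      omega
  have h𝒮ne : 𝒮Y.Nonempty := by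
    rw [← Finset.card_pos]
    omega
  obtain ⟨S0, hS0⟩ := h𝒮ne
  have hS0' := hS0
  rw [h𝒮Y, Finset.mem_filter] at hS0'
  have hS0T := mem_Tm.mp (hD.1 (hmem S0 hS0'.1).1)
  have hYcons : Cons Y := hS0T.2.mono hS0'.2
  have hYT : Y ∈ Tm X w := mem_Tm.mpr ⟨by omega, hYcons⟩
  set 𝒮' := 𝒮Y.image (fun S => S \ Y) with h𝒮'
  have hinj : Set.InjOn (fun S => S \ Y) (𝒮Y : Set (Finset (X × Bool))) := by
    intro S hS S' hS' hh
    rw [Finset.mem_coe, h𝒮Y, Finset.mem_filter] at hS hS'
    simp only at hh
    rw [← Finset.sdiff_union_of_subset hS.2, ← Finset.sdiff_union_of_subset hS'.2, hh]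
  have hcard' : 𝒮'.card = 𝒮Y.card := Finset.card_image_of_injOn hinj
  have hmem' : ∀ S' ∈ 𝒮', ∃ S ∈ mins D j, Y ⊆ S ∧ S' = S \ Y := by
    intro S' hS'
    obtain ⟨S, hS, rfl⟩ := Finset.mem_image.mp hS'
    rw [h𝒮Y, Finset.mem_filter] at hS
    exact ⟨S, hS.1, hS.2, rfl⟩
  have hKpos : 0 < K := by
    rw [hK]
    have : 0 < w := by omega
    have : 0 < m := by omega
    positivity
  have hmom := moment (m := m) hm (F := F)
    (Ωs := (univ : Finset Ω).filter (fun ω => Sat F ω Y)) (k := m * (j - Y.card))
    (j := j - Y.card) (Z := pts Y)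
    (unif_cond hU (by
      have : m * (j - Y.card) ≤ m * w := Nat.mul_le_mul_left _ (by omega)
      nlinarith) hYcons) le_rfl 𝒮'
    (by rw [← Finset.card_pos, hcard']; omega)
    (by
      intro S' hS'
      obtain ⟨S, hS, hYS, rfl⟩ := hmem' S' hS'
      rw [Finset.card_sdiff_of_subset hYS, (hmem S hS).2.1])
    (by
      intro S' hS'
      obtain ⟨S, hS, hYS, rfl⟩ := hmem' S' hS'
      exact (mem_Tm.mp (hD.1 (hmem S hS).1)).2.mono Finset.sdiff_subset)
    (by
      intro S' hS'
      obtain ⟨S, hS, hYS, rfl⟩ := hmem' S' hS'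
      have hSc := (mem_Tm.mp (hD.1 (hmem S hS).1)).2
      rw [Finset.disjoint_left]
      intro x hx hx'
      obtain ⟨e, he, rfl⟩ := Finset.mem_image.mp hx
      obtain ⟨e', he', hee⟩ := Finset.mem_image.mp hx'
      rw [Finset.mem_sdiff] at he
      have : e = e' := Prod.ext hee.symm (hSc e he.1 e' (hYS he') hee.symm)
      exact he.2 (this ▸ he'))
    (by
      intro V hV
      refine spread_wt 𝒮' ?_ (256 * m * w) (by
        have : 0 < w := by omega
        have : 0 < m := by omega
        positivity) ?_ V ?_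
      · intro S' hS'
        obtain ⟨S, hS, hYS, rfl⟩ := hmem' S' hS'
        exact (mem_Tm.mp (hD.1 (hmem S hS).1)).2.mono Finset.sdiff_subset
      · intro R hR
        have hK4 : 4 * (256 * m * w) = K := by rw [hK]; ring
        rw [hK4, hcard']
        by_cases hRY : Disjoint R Y
        · by_cases hbig : (Y ∪ R).card ≤ j
          · have hYR : (Y ∪ R).card = Y.card + R.card :=
              Finset.card_union_of_disjoint hRY.symm
            have hnot : Y ∪ R ∉ 𝒴 := by
              intro h
              have := hmax _ h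
              have := hR.card_pos
              omega
            rw [h𝒴, Finset.mem_filter] at hnot
            push Not at hnot
            have h1 := hnot (Finset.mem_univ _) hbig
            have h2 : (𝒮'.filter (fun S => R ⊆ S)).card ≤
                ((mins D j).filter (fun S => Y ∪ R ⊆ S)).card := by
              apply Finset.card_le_card_of_injOn (fun S' => S' ∪ Y)
              · intro S' hS'
                rw [Finset.mem_coe, Finset.mem_filter] at hS'
                obtain ⟨S, hS, hYS, rfl⟩ := hmem' S' hS'.1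
                change S \ Y ∪ Y ∈ ((mins D j).filter (fun S => Y ∪ R ⊆ S))
                rw [Finset.mem_filter, Finset.sdiff_union_of_subset hYS]
                exact ⟨hS, Finset.union_subset hYS (hS'.2.trans Finset.sdiff_subset)⟩
              · intro S' hS' S'' hS'' hh
                rw [Finset.mem_coe, Finset.mem_filter] at hS' hS''
                obtain ⟨S, hS, hYS, rfl⟩ := hmem' S' hS'.1
                obtain ⟨T, hT, hYT', rfl⟩ := hmem' S'' hS''.1
                simp only [Finset.sdiff_union_of_subset hYS,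
                  Finset.sdiff_union_of_subset hYT'] at hh
                rw [hh]
            calc (𝒮'.filter (fun S => R ⊆ S)).card * K ^ R.card
                ≤ K ^ (j - (Y ∪ R).card) * K ^ R.card :=
                  Nat.mul_le_mul_right _ (h2.trans h1)
              _ = K ^ (j - Y.card) := by
                  rw [← pow_add]
                  congr 1
                  omega
              _ ≤ 𝒮Y.card := hYK.le
          · have h0 : (𝒮'.filter (fun S => R ⊆ S)).card = 0 := by
              rw [Finset.card_eq_zero, Finset.filter_eq_empty_iff]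
              intro S' hS' hRS
              obtain ⟨S, hS, hYS, rfl⟩ := hmem' S' hS'
              apply hbig
              rw [← (hmem S hS).2.1]
              exact Finset.card_le_card
                (Finset.union_subset hYS (hRS.trans Finset.sdiff_subset))
            rw [h0, zero_mul]
            exact Nat.zero_le _
        · have h0 : (𝒮'.filter (fun S => R ⊆ S)).card = 0 := by
            rw [Finset.card_eq_zero, Finset.filter_eq_empty_iff]
            intro S' hS' hRS
            obtain ⟨S, hS, hYS, rfl⟩ := hmem' S' hS'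
            apply hRY
            exact (Finset.sdiff_disjoint (s := Y) (t := S)).mono_left hRS
          rw [h0, zero_mul]
          exact Nat.zero_le _
      · have h1 : V.card ≤ m * w := hV.trans (Nat.mul_le_mul_left _ (by omega))
        nlinarith)
  -- contradiction with closedness
  have hbad : badc F D Y * 2 ^ q ≤ Nx F univ Y := by
    have hsub : badc F D Y ≤ (((univ : Finset Ω).filter (fun ω => Sat F ω Y)).filter
        (fun ω => ∀ S ∈ 𝒮', ¬ Sat F ω S)).card := by
      unfold badc
      apply Finset.card_le_card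
      intro ω hω
      rw [Finset.mem_filter] at hω
      rw [Finset.mem_filter, Finset.mem_filter]
      refine ⟨⟨Finset.mem_univ _, hω.2.1⟩, ?_⟩
      intro S' hS' hsat
      obtain ⟨S, hS, hYS, rfl⟩ := hmem' S' hS'
      apply hω.2.2 S (hmem S hS).1
      rw [← Finset.sdiff_union_of_subset hYS, sat_union]
      exact ⟨hsat, hω.2.1⟩
    have h2m : 2 ^ m = 2 * 2 ^ q := by rw [hmq, pow_succ]; ring
    have h3 : badc F D Y * (2 * 2 ^ q) ≤ 2 * Nx F univ Y := by
      rw [← h2m]
      refine (Nat.mul_le_mul_right _ hsub).trans ?_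
      unfold Nx
      refine le_trans (le_of_eq ?_) (hmom.trans (le_of_eq ?_))
      · congr!
      · congr!
    nlinarith
  have hYD : Y ∈ D := hD.2 Y hYT hbad
  have := (hmem S0 hS0'.1).2.2 Y hYD hS0'.2
  rw [this, (hmem S0 hS0'.1).2.1] at hYlt
  exact lt_irrefl _ hYlt

end Closed

end Pool.Agent.Helper80K3
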