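import Mathlib

/-!
Spread families of partial functions and functions with limited independence.
-/

namespace Pool.Agent.Helper80K3

open Finset

variable {X : Type} [DecidableEq X] {Ω : Type}

/-- The points of a set of labelled points. -/
def pts (S : Finset (X × Bool)) : Finset X := S.image Prod.fst

/-- A set of labelled points is consistent when it is the graph of a partial function. -/
def Cons (S : Finset (X × Bool)) : Prop := ∀ e ∈ S, ∀ e' ∈ S, e.1 = e'.1 → e.2 = e'.2

instance : DecidablePred (Cons (X := X)) := fun S => by unfold Cons; infer_instance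

/-- The function with index `ω` extends `S`. -/
def Sat (F : Ω → X → Bool) (ω : Ω) (S : Finset (X × Bool)) : Prop := ∀ e ∈ S, F ω e.1 = e.2

instance (F : Ω → X → Bool) (ω : Ω) : DecidablePred (Sat F ω) := fun S => by
  unfold Sat; infer_instance

/-- Limited uniformity, outside of `Z`, of the functions with indices in `Ωs`. -/
def UnifOff (F : Ω → X → Bool) (Ωs : Finset Ω) (k : ℕ) (Z : Finset X) : Prop :=
  ∀ (P : Finset X) (β : X → Bool), P.card ≤ k → Disjoint P Z →
    (Ωs.filter (fun ω => ∀ x ∈ P, F ω x = β x)).card * 2 ^ P.card = Ωs.card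

theorem pts_union (S T : Finset (X × Bool)) : pts (S ∪ T) = pts S ∪ pts T := by
  unfold pts; exact Finset.image_union _ _

theorem pts_biUnion {ι : Type} [DecidableEq ι] (A : Finset ι) (s : ι → Finset (X × Bool)) :
    pts (A.biUnion s) = A.biUnion (fun i => pts (s i)) := by
  unfold pts; rw [Finset.biUnion_image]

theorem Cons.card_pts {S : Finset (X × Bool)} (h : Cons S) : (pts S).card = S.card := by
  unfold pts
  apply Finset.card_image_of_injOn
  intro e he e' he' hee
  exact Prod.ext hee (h e he e' he' hee)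

theorem Cons.mono {S T : Finset (X × Bool)} (h : Cons T) (hST : S ⊆ T) : Cons S :=
  fun e he e' he' => h e (hST he) e' (hST he')

theorem Sat.cons {F : Ω → X → Bool} {ω : Ω} {S : Finset (X × Bool)} (h : Sat F ω S) : Cons S := by
  intro e he e' he' hee
  rw [← h e he, ← h e' he', hee]

theorem sat_union {F : Ω → X → Bool} {ω : Ω} {S T : Finset (X × Bool)} :
    Sat F ω (S ∪ T) ↔ Sat F ω S ∧ Sat F ω T := by
  unfold Sat
  constructor
  · intro h
    exact ⟨fun e he => h e (Finset.mem_union_left _ he),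
      fun e he => h e (Finset.mem_union_right _ he)⟩
  · rintro ⟨h1, h2⟩ e he
    rcases Finset.mem_union.mp he with h | h
    · exact h1 e h
    · exact h2 e h

theorem sat_biUnion {ι : Type} [DecidableEq ι] {F : Ω → X → Bool} {ω : Ω} {A : Finset ι}
    {s : ι → Finset (X × Bool)} : Sat F ω (A.biUnion s) ↔ ∀ i ∈ A, Sat F ω (s i) := by
  unfold Sat
  constructor
  · intro h i hi e he
    exact h e (Finset.mem_biUnion.mpr ⟨i, hi, he⟩)
  · intro h e he
    obtain ⟨i, hi, he⟩ := Finset.mem_biUnion.mp he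
    exact h i hi e he

/-- Number of extensions. -/
def Nx (F : Ω → X → Bool) (Ωs : Finset Ω) (S : Finset (X × Bool)) : ℕ :=
  (Ωs.filter (fun ω => Sat F ω S)).card

theorem Nx_eq {F : Ω → X → Bool} {Ωs : Finset Ω} {k : ℕ} {Z : Finset X}
    (hU : UnifOff F Ωs k Z) {S : Finset (X × Bool)} (hS : Cons S) (hk : (pts S).card ≤ k)
    (hZ : Disjoint (pts S) Z) : Nx F Ωs S * 2 ^ (pts S).card = Ωs.card := by
  classical
  let β : X → Bool := fun x => decide ((x, true) ∈ S)
  have hβ : ∀ e ∈ S, β e.1 = e.2 := by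
    rintro ⟨x, b⟩ he
    simp only [β]
    cases b with
    | true => simpa using he
    | false =>
      simp only [decide_eq_false_iff_not]
      intro h
      exact Bool.noConfusion (hS (x, true) h (x, false) he rfl)
  have h := hU (pts S) β hk hZ
  rw [← h]
  congr 1
  unfold Nx
  congr 1
  apply Finset.filter_congr
  intro ω _
  constructor
  · intro hs x hx
    obtain ⟨e, he, rfl⟩ := Finset.mem_image.mp hx
    rw [hs e he, hβ e he]
  · intro hs e he
    rw [hs e.1 (Finset.mem_image_of_mem _ he), hβ e he]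

theorem Nx_zero {F : Ω → X → Bool} {Ωs : Finset Ω} {S : Finset (X × Bool)} (hS : ¬ Cons S) :
    Nx F Ωs S = 0 := by
  unfold Nx
  rw [Finset.card_eq_zero, Finset.filter_eq_empty_iff]
  intro ω _ h
  exact hS h.cons

theorem Nx_le {F : Ω → X → Bool} {Ωs : Finset Ω} {k : ℕ} {Z : Finset X}
    (hU : UnifOff F Ωs k Z) {S : Finset (X × Bool)} (hk : (pts S).card ≤ k)
    (hZ : Disjoint (pts S) Z) : Nx F Ωs S * 2 ^ (pts S).card ≤ Ωs.card := by
  by_cases hS : Cons S
  · exact (Nx_eq hU hS hk hZ).le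
  · rw [Nx_zero hS, zero_mul]; exact Nat.zero_le _

/-- Adding a consistent set with new points divides the number by a power of two. -/
theorem Nx_union {F : Ω → X → Bool} {Ωs : Finset Ω} {k : ℕ} {Z : Finset X}
    (hU : UnifOff F Ωs k Z) {S T : Finset (X × Bool)} (hT : Cons T)
    (hk : (pts S ∪ pts T).card ≤ k) (hZ : Disjoint (pts S ∪ pts T) Z)
    (hd : Disjoint (pts S) (pts T)) : Nx F Ωs (S ∪ T) * 2 ^ T.card = Nx F Ωs S := by
  by_cases hS : Cons S
  · have hST : Cons (S ∪ T) := by
      intro e he e' he' hee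
      rcases Finset.mem_union.mp he with h | h <;> rcases Finset.mem_union.mp he' with h' | h'
      · exact hS e h e' h' hee
      · exfalso
        have h1 : e.1 ∈ pts S := Finset.mem_image_of_mem _ h
        have h2 : e.1 ∈ pts T := by rw [hee]; exact Finset.mem_image_of_mem _ h'
        exact Finset.disjoint_left.mp hd h1 h2
      · exfalso
        have h1 : e'.1 ∈ pts S := Finset.mem_image_of_mem _ h'
        have h2 : e'.1 ∈ pts T := by rw [← hee]; exact Finset.mem_image_of_mem _ h
        exact Finset.disjoint_left.mp hd h1 h2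
      · exact hT e h e' h' hee
    have e1 := Nx_eq hU hST (by rwa [pts_union]) (by rwa [pts_union])
    have e2 := Nx_eq hU hS ((Finset.card_le_card Finset.subset_union_left).trans hk)
      (hZ.mono_left Finset.subset_union_left)
    rw [pts_union, Finset.card_union_of_disjoint hd, hT.card_pts, pow_add] at e1
    have h2 : 0 < 2 ^ (pts S).card := by positivity
    apply Nat.eq_of_mul_eq_mul_right h2
    rw [e2, ← e1]
    ring
  · rw [Nx_zero hS, Nx_zero (fun h => hS (h.mono Finset.subset_union_left)), zero_mul]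

/-! ### Tuples -/

section Tuples

variable {α : Type} {m : ℕ}

/-- Points of the earlier members. -/
def Ub (p : α → Finset X) (s : Fin m → α) (i : Fin m) : Finset X :=
  (univ.filter (fun l => l < i)).biUnion (fun l => p (s l))

/-- Points of all members. -/
def Ua (p : α → Finset X) (s : Fin m → α) : Finset X := univ.biUnion (fun l => p (s l))

/-- The excess. -/
def ex (p : α → Finset X) (s : Fin m → α) : ℕ := ∑ i, (p (s i) ∩ Ub p s i).card

/-- The number of members which meet an earlier member. -/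
def ac (p : α → Finset X) (s : Fin m → α) : ℕ :=
  (univ.filter (fun i => (p (s i) ∩ Ub p s i).Nonempty)).card

theorem Ub_castSucc (p : α → Finset X) (s : Fin (m + 1) → α) (i : Fin m) :
    Ub p s i.castSucc = Ub p (fun l => s l.castSucc) i := by
  ext x
  simp only [Ub, Finset.mem_biUnion, Finset.mem_filter, Finset.mem_univ, true_and]
  constructor
  · rintro ⟨l, hl, hx⟩
    have hl' : l.val < m := lt_trans (Fin.lt_def.mp hl) i.2
    refine ⟨⟨l.val, hl'⟩, ?_, ?_⟩
    · rw [Fin.lt_def] at hl ⊢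
      simpa using hl
    · exact hx
  · rintro ⟨l, hl, hx⟩
    exact ⟨l.castSucc, by simpa using hl, hx⟩

theorem Ub_last (p : α → Finset X) (s : Fin (m + 1) → α) :
    Ub p s (Fin.last m) = Ua p (fun l : Fin m => s l.castSucc) := by
  ext x
  simp only [Ub, Ua, Finset.mem_biUnion, Finset.mem_filter, Finset.mem_univ, true_and]
  constructor
  · rintro ⟨l, hl, hx⟩
    exact ⟨⟨l.val, by simpa [Fin.lt_def] using hl⟩, hx⟩
  · rintro ⟨l, hx⟩
    exact ⟨l.castSucc, Fin.castSucc_lt_last l, hx⟩

theorem Ua_succ (p : α → Finset X) (s : Fin (m + 1) → α) :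
    Ua p s = Ua p (fun l : Fin m => s l.castSucc) ∪ p (s (Fin.last m)) := by
  ext x
  simp only [Ua, Finset.mem_biUnion, Finset.mem_univ, true_and, Finset.mem_union]
  constructor
  · rintro ⟨l, hx⟩
    rcases Fin.eq_castSucc_or_eq_last l with ⟨l', rfl⟩ | rfl
    · exact Or.inl ⟨l', hx⟩
    · exact Or.inr hx
  · rintro (⟨l, hx⟩ | hx)
    · exact ⟨_, hx⟩
    · exact ⟨_, hx⟩

theorem ex_eq (p : α → Finset X) (s : Fin m → α) :
    ex p s + (Ua p s).card = ∑ i, (p (s i)).card := by
  induction m with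
  | zero => simp [ex, Ua]
  | succ m ih =>
    have h := ih (fun l : Fin m => s l.castSucc)
    unfold ex at h ⊢
    rw [Fin.sum_univ_castSucc, Fin.sum_univ_castSucc, ← h]
    simp only [Ub_castSucc, Ub_last, Ua_succ]
    have h2 := Finset.card_union_add_card_inter (Ua p (fun l : Fin m => s l.castSucc))
      (p (s (Fin.last m)))
    rw [Finset.inter_comm] at h2
    omega

/-- The weight of a set of points relative to the earlier ones. -/
noncomputable def wt (V P : Finset X) : ℝ :=
  if (P ∩ V).Nonempty then 64 * 2 ^ (P ∩ V).card else 1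

theorem prod_wt (p : α → Finset X) (s : Fin m → α) :
    ∏ i, wt (Ub p s i) (p (s i)) = 2 ^ ex p s * 64 ^ ac p s := by
  classical
  unfold ex ac wt
  rw [← Finset.prod_pow_eq_pow_sum, ← Finset.prod_const, Finset.prod_filter,
    ← Finset.prod_mul_distrib]
  refine Finset.prod_congr rfl fun i _ => ?_
  split_ifs with h
  · ring
  · rw [Finset.not_nonempty_iff_eq_empty] at h
    simp [h]

/-- Sum over all tuples. -/
theorem sum_tuples [Fintype α] (p : α → Finset X) (j B : ℕ) (hp : ∀ a, (p a).card ≤ j)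
    (hw : ∀ V : Finset X, V.card ≤ B → ∑ a, wt V (p a) ≤ 2 * Fintype.card α) (hm : m * j ≤ B) :
    ∑ s : Fin m → α, (2 : ℝ) ^ ex p s * 64 ^ ac p s ≤ (2 * Fintype.card α) ^ m := by
  classical
  induction m with
  | zero => simp [ex, ac]
  | succ m ih =>
    have ih' := ih (by nlinarith)
    rw [← (Fin.snocEquiv (fun _ : Fin (m + 1) => α)).sum_comp, Fintype.sum_prod_type_right]
    have hcard : ∀ s : Fin m → α, (Ua p s).card ≤ B := by
      intro s
      unfold Ua
      refine (Finset.card_biUnion_le).trans ?_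
      refine (Finset.sum_le_card_nsmul _ _ j (fun i _ => hp _)).trans ?_
      simp only [Finset.card_univ, Fintype.card_fin, smul_eq_mul]
      nlinarith
    have hstep : ∀ s : Fin m → α, ∑ a : α,
        (2 : ℝ) ^ ex p ((Fin.snocEquiv (fun _ : Fin (m + 1) => α)) (a, s)) *
          64 ^ ac p ((Fin.snocEquiv (fun _ : Fin (m + 1) => α)) (a, s)) ≤
        (2 * Fintype.card α) * ((2 : ℝ) ^ ex p s * 64 ^ ac p s) := by
      intro s
      have h1 : ∀ a : α, (2 : ℝ) ^ ex p ((Fin.snocEquiv (fun _ : Fin (m + 1) => α)) (a, s)) *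
          64 ^ ac p ((Fin.snocEquiv (fun _ : Fin (m + 1) => α)) (a, s)) =
          ((2 : ℝ) ^ ex p s * 64 ^ ac p s) * wt (Ua p s) (p a) := by
        intro a
        rw [← prod_wt, ← prod_wt, Fin.prod_univ_castSucc]
        simp only [Ub_castSucc, Ub_last, Fin.snocEquiv, Equiv.coe_fn_mk, Fin.snoc_castSucc,
          Fin.snoc_last]
      rw [Finset.sum_congr rfl fun a _ => h1 a, ← Finset.mul_sum, mul_comm]
      exact mul_le_mul_of_nonneg_right (hw _ (hcard s)) (by positivity)
    calc _ ≤ ∑ s : Fin m → α, (2 * Fintype.card α) * ((2 : ℝ) ^ ex p s * 64 ^ ac p s) :=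
          Finset.sum_le_sum fun s _ => hstep s
      _ = (2 * Fintype.card α) * ∑ s : Fin m → α, ((2 : ℝ) ^ ex p s * 64 ^ ac p s) := by
          rw [Finset.mul_sum]
      _ ≤ (2 * Fintype.card α) * (2 * Fintype.card α) ^ m := by
          exact mul_le_mul_of_nonneg_left ih' (by positivity)
      _ = _ := by ring

/-- No isolated member. -/
def NoIso (p : α → Finset X) (s : Fin m → α) : Prop :=
  ∀ i, ∃ l, l ≠ i ∧ (p (s i) ∩ p (s l)).Nonempty

theorem ex_rev (p : α → Finset X) (s : Fin m → α) : ex p (s ∘ Fin.rev) = ex p s := by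
  have h1 := ex_eq p s
  have h2 := ex_eq p (s ∘ Fin.rev)
  have h3 : Ua p (s ∘ Fin.rev) = Ua p s := by
    ext x
    simp only [Ua, Finset.mem_biUnion, Finset.mem_univ, true_and, Function.comp]
    constructor
    · rintro ⟨l, hl⟩; exact ⟨_, hl⟩
    · rintro ⟨l, hl⟩; exact ⟨l.rev, by simpa using hl⟩
  have h4 : ∑ i, (p ((s ∘ Fin.rev) i)).card = ∑ i, (p (s i)).card :=
    Equiv.sum_comp Fin.revPerm (fun i => (p (s i)).card)
  rw [h3, h4] at h2
  omega

theorem noIso_ac (p : α → Finset X) (s : Fin m → α) (h : NoIso p s) :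
    m ≤ ac p s + ac p (s ∘ Fin.rev) := by
  classical
  have h1 : ac p (s ∘ Fin.rev) =
      (univ.filter (fun i : Fin m => ∃ l, i < l ∧ (p (s i) ∩ p (s l)).Nonempty)).card := by
    unfold ac
    apply Finset.card_bij (fun i _ => Fin.rev i)
    · intro i hi
      simp only [Finset.mem_filter, Finset.mem_univ, true_and] at hi ⊢
      obtain ⟨x, hx⟩ := hi
      rw [Finset.mem_inter] at hx
      obtain ⟨hx1, hx2⟩ := hx
      simp only [Ub, Finset.mem_biUnion, Finset.mem_filter, Finset.mem_univ, true_and,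
        Function.comp] at hx2
      obtain ⟨l, hl, hx2⟩ := hx2
      refine ⟨l.rev, ?_, x, Finset.mem_inter.mpr ⟨hx1, hx2⟩⟩
      exact Fin.rev_lt_rev.mpr hl
    · intro i _ i' _ hii
      exact Fin.rev_injective hii
    · intro i hi
      simp only [Finset.mem_filter, Finset.mem_univ, true_and] at hi
      obtain ⟨l, hl, x, hx⟩ := hi
      rw [Finset.mem_inter] at hx
      refine ⟨i.rev, ?_, Fin.rev_rev i⟩
      simp only [Finset.mem_filter, Finset.mem_univ, true_and]
      refine ⟨x, Finset.mem_inter.mpr ⟨by simpa using hx.1, ?_⟩⟩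
      simp only [Ub, Finset.mem_biUnion, Finset.mem_filter, Finset.mem_univ, true_and,
        Function.comp]
      exact ⟨l.rev, Fin.rev_lt_rev.mpr hl, by simpa using hx.2⟩
  have h2 : ac p s =
      (univ.filter (fun i : Fin m => ∃ l, l < i ∧ (p (s i) ∩ p (s l)).Nonempty)).card := by
    unfold ac
    congr 1
    apply Finset.filter_congr
    intro i _
    constructor
    · rintro ⟨x, hx⟩
      rw [Finset.mem_inter] at hx
      obtain ⟨hx1, hx2⟩ := hx
      simp only [Ub, Finset.mem_biUnion, Finset.mem_filter, Finset.mem_univ, true_and] at hx2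
      obtain ⟨l, hl, hx2⟩ := hx2
      exact ⟨l, hl, x, Finset.mem_inter.mpr ⟨hx1, hx2⟩⟩
    · rintro ⟨l, hl, x, hx⟩
      rw [Finset.mem_inter] at hx
      refine ⟨x, Finset.mem_inter.mpr ⟨hx.1, ?_⟩⟩
      simp only [Ub, Finset.mem_biUnion, Finset.mem_filter, Finset.mem_univ, true_and]
      exact ⟨l, hl, hx.2⟩
  rw [h1, h2]
  have h3 : (univ : Finset (Fin m)) ⊆
      (univ.filter (fun i : Fin m => ∃ l, l < i ∧ (p (s i) ∩ p (s l)).Nonempty)) ∪
      (univ.filter (fun i : Fin m => ∃ l, i < l ∧ (p (s i) ∩ p (s l)).Nonempty)) := by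
    intro i _
    obtain ⟨l, hl, hne⟩ := h i
    rw [Finset.mem_union]
    rcases lt_or_gt_of_ne hl with hl | hl
    · left
      simp only [Finset.mem_filter, Finset.mem_univ, true_and]
      exact ⟨l, hl, hne⟩
    · right
      simp only [Finset.mem_filter, Finset.mem_univ, true_and]
      exact ⟨l, hl, hne⟩
  have h4 := (Finset.card_le_card h3).trans (Finset.card_union_le _ _)
  simpa using h4

open Classical in
/-- Sum over the tuples without isolated members. -/
theorem sum_noIso [Fintype α] (p : α → Finset X) (j B : ℕ) (hp : ∀ a, (p a).card ≤ j)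
    (hw : ∀ V : Finset X, V.card ≤ B → ∑ a, wt V (p a) ≤ 2 * Fintype.card α) (hm : m * j ≤ B) :
    8 ^ m * ∑ s ∈ univ.filter (fun s : Fin m → α => NoIso p s), (2 : ℝ) ^ ex p s ≤
      2 * (2 * Fintype.card α) ^ m := by
  have h1 : ∀ s ∈ univ.filter (fun s : Fin m → α => NoIso p s), 8 ^ m * (2 : ℝ) ^ ex p s ≤
      (2 : ℝ) ^ ex p s * 64 ^ ac p s +
        (2 : ℝ) ^ ex p (s ∘ Fin.rev) * 64 ^ ac p (s ∘ Fin.rev) := by
    intro s hs
    simp only [Finset.mem_filter, Finset.mem_univ, true_and] at hs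
    have h2 := noIso_ac p s hs
    rw [ex_rev, ← mul_add, mul_comm]
    apply mul_le_mul_of_nonneg_left _ (by positivity)
    rcases le_total (ac p s) (ac p (s ∘ Fin.rev)) with h3 | h3
    · have h4 : m ≤ 2 * ac p (s ∘ Fin.rev) := by omega
      have h5 : (8 : ℝ) ^ m ≤ 8 ^ (2 * ac p (s ∘ Fin.rev)) :=
        pow_le_pow_right₀ (by norm_num) h4
      rw [pow_mul] at h5
      norm_num at h5
      have : (0 : ℝ) ≤ 64 ^ ac p s := by positivity
      linarith
    · have h4 : m ≤ 2 * ac p s := by omega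
      have h5 : (8 : ℝ) ^ m ≤ 8 ^ (2 * ac p s) :=
        pow_le_pow_right₀ (by norm_num) h4
      rw [pow_mul] at h5
      norm_num at h5
      have : (0 : ℝ) ≤ 64 ^ ac p (s ∘ Fin.rev) := by positivity
      linarith
  have h6 := sum_tuples (m := m) p j B hp hw hm
  have h7 : ∑ s : Fin m → α, (2 : ℝ) ^ ex p (s ∘ Fin.rev) * 64 ^ ac p (s ∘ Fin.rev) =
      ∑ s : Fin m → α, (2 : ℝ) ^ ex p s * 64 ^ ac p s := by
    refine Fintype.sum_equiv (Equiv.arrowCongr Fin.revPerm (Equiv.refl α)) _ _ ?_
    intro s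
    have : (Equiv.arrowCongr Fin.revPerm (Equiv.refl α)) s = s ∘ Fin.rev := by
      ext i
      simp [Equiv.arrowCongr]
    rw [this]
  calc 8 ^ m * ∑ s ∈ univ.filter (fun s : Fin m → α => NoIso p s), (2 : ℝ) ^ ex p s
      = ∑ s ∈ univ.filter (fun s : Fin m → α => NoIso p s), 8 ^ m * (2 : ℝ) ^ ex p s := by
        rw [Finset.mul_sum]
    _ ≤ ∑ s ∈ univ.filter (fun s : Fin m → α => NoIso p s), ((2 : ℝ) ^ ex p s * 64 ^ ac p s +
        (2 : ℝ) ^ ex p (s ∘ Fin.rev) * 64 ^ ac p (s ∘ Fin.rev)) := Finset.sum_le_sum h1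
    _ ≤ ∑ s : Fin m → α, ((2 : ℝ) ^ ex p s * 64 ^ ac p s +
        (2 : ℝ) ^ ex p (s ∘ Fin.rev) * 64 ^ ac p (s ∘ Fin.rev)) := by
        apply Finset.sum_le_sum_of_subset_of_nonneg (Finset.filter_subset _ _)
        intro s _ _
        positivity
    _ ≤ 2 * (2 * Fintype.card α) ^ m := by
        rw [Finset.sum_add_distrib, h7]
        linarith

end Tuples

end Pool.Agent.Helper80K3
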