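import Pool.Agent.Helper80K3.Circ
import Pool.Agent.Helper80K3.Spread

/-!
A family of functions with limited independence and small circuits.
-/

namespace Pool.Agent.Helper80K3

open Finset

section Fibres

variable {G H : Type} [AddCommGroup G] [Fintype G] [AddCommGroup H] [Fintype H] [DecidableEq H]

theorem card_fibre (Φ : G →+ H) (hΦ : Function.Surjective Φ) (h : H) :
    ((univ : Finset G).filter (fun g => Φ g = h)).card * Fintype.card H = Fintype.card G := by
  classical
  have h1 : (univ : Finset G).card = ∑ h' ∈ (univ : Finset H),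
      ((univ : Finset G).filter (fun g => Φ g = h')).card :=
    Finset.card_eq_sum_card_fiberwise (fun g _ => Finset.mem_univ _)
  have h2 : ∀ h' : H, ((univ : Finset G).filter (fun g => Φ g = h')).card =
      ((univ : Finset G).filter (fun g => Φ g = h)).card := by
    intro h'
    obtain ⟨g, hg⟩ := hΦ (h' - h)
    apply Finset.card_bij (fun a _ => a - g)
    · intro a ha
      rw [Finset.mem_filter] at ha ⊢
      refine ⟨Finset.mem_univ _, ?_⟩
      rw [map_sub, ha.2, hg]
      abel
    · intro a _ a' _ haa
      simpa using haa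
    · intro a ha
      rw [Finset.mem_filter] at ha
      refine ⟨a + g, ?_, by abel⟩
      rw [Finset.mem_filter]
      refine ⟨Finset.mem_univ _, ?_⟩
      rw [map_add, ha.2, hg]
      abel
  rw [Finset.sum_congr rfl (fun h' _ => h2 h'), Finset.sum_const, smul_eq_mul, Finset.card_univ,
    Finset.card_univ] at h1
  rw [h1, Nat.mul_comm]

end Fibres

section Field

set_option linter.unusedSectionVars false

variable {K : Type} [Field K] [Fintype K] [Algebra (ZMod 2) K] {n : ℕ}
  (b : Module.Basis (Fin n) (ZMod 2) K)

/-- A bit as an element of the field with two elements. -/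
def bz (c : Bool) : ZMod 2 := if c then 1 else 0

theorem bz_decide (z : ZMod 2) : bz (decide (z = 1)) = z := by
  revert z; decide

theorem decide_bz (c : Bool) : decide (bz c = 1) = c := by
  cases c <;> decide

/-- Points as elements of the field. -/
noncomputable def emb (x : Fin n → Bool) : K := ∑ i, bz (x i) • b i

theorem emb_inj : Function.Injective (emb b) := by
  intro x y hxy
  funext i
  unfold emb at hxy
  have h := congrArg (fun z => b.repr z i) hxy
  simp only [Module.Basis.repr_sum_self] at h
  rw [← decide_bz (x i), ← decide_bz (y i), h]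

/-- The coordinates as bits. -/
noncomputable def bit (z : K) (l : Fin n) : Bool := decide (b.repr z l = 1)

theorem bz_bit (z : K) (l : Fin n) : bz (bit b z l) = b.repr z l := bz_decide _

/-- The family. -/
noncomputable def famF (l0 : Fin n) (k : ℕ) (y : Fin k → K) (x : Fin n → Bool) : Bool :=
  bit b (∑ i : Fin k, y i * emb b x ^ (i : ℕ)) l0

theorem famF_unif (l0 : Fin n) (k : ℕ) (hk : 0 < k) :
    UnifOff (famF b l0 k) (univ : Finset (Fin k → K)) k ∅ := by
  classical
  intro P β hP _
  let Φ : (Fin k → K) →+ (P → ZMod 2) :=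
    { toFun := fun y x => b.repr (∑ i : Fin k, y i * emb b x.1 ^ (i : ℕ)) l0
      map_zero' := by
        funext x
        simp
      map_add' := by
        intro y y'
        funext x
        simp only [Pi.add_apply, add_mul, Finset.sum_add_distrib, map_add, Finsupp.add_apply] }
  have hΦ : Function.Surjective Φ := by
    intro γ
    let v : (Fin n → Bool) → K := fun x => if h : x ∈ P then γ ⟨x, h⟩ • b l0 else 0
    let p := Lagrange.interpolate P (emb b) v
    have hinj : Set.InjOn (emb b) (P : Set (Fin n → Bool)) := (emb_inj b).injOn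
    have hdeg : p.natDegree < k := by
      by_cases hp : p = 0
      · rw [hp, Polynomial.natDegree_zero]
        exact hk
      · rw [Polynomial.natDegree_lt_iff_degree_lt hp]
        have h1 := Lagrange.degree_interpolate_lt v hinj
        refine lt_of_lt_of_le h1 ?_
        exact_mod_cast hP
    refine ⟨fun i => p.coeff i, ?_⟩
    funext x
    change b.repr (∑ i : Fin k, p.coeff i * emb b x.1 ^ (i : ℕ)) l0 = γ x
    have h2 : ∑ i : Fin k, p.coeff i * emb b x.1 ^ (i : ℕ) = p.eval (emb b x.1) := by
      rw [Polynomial.eval_eq_sum_range' hdeg, Finset.sum_range]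
    rw [h2, Lagrange.eval_interpolate_at_node v hinj x.2]
    simp only [v]
    rw [dif_pos x.2, map_smul, Finsupp.smul_apply, Module.Basis.repr_self,
      Finsupp.single_eq_same]
    simp
  have h := card_fibre Φ hΦ (fun x => bz (β x.1))
  have hcard : Fintype.card (P → ZMod 2) = 2 ^ P.card := by
    rw [Fintype.card_fun, ZMod.card, Fintype.card_coe]
  rw [hcard] at h
  rw [Finset.card_univ, ← h]
  congr 2
  ext y
  simp only [Finset.mem_filter, Finset.mem_univ, true_and]
  constructor
  · intro hy
    funext x
    have h1 := hy x.1 x.2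
    change b.repr (∑ i : Fin k, y i * emb b x.1 ^ (i : ℕ)) l0 = _
    rw [← bz_bit, ← h1]
    rfl
  · intro hy x hx
    have h1 := congrFun hy ⟨x, hx⟩
    change b.repr (∑ i : Fin k, y i * emb b x ^ (i : ℕ)) l0 = _ at h1
    unfold famF bit
    rw [h1, decide_bz]

theorem bit_add (z z' : K) (l : Fin n) :
    bit b (z + z') l = xor (bit b z l) (bit b z' l) := by
  unfold bit
  rw [map_add, Finsupp.add_apply]
  have : ∀ a c : ZMod 2, decide (a + c = 1) = xor (decide (a = 1)) (decide (c = 1)) := by
    decide
  exact this _ _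

theorem bit_mul (x : Fin n → Bool) (z : K) (l : Fin n) :
    bit b (emb b x * z) l = xsum ((univ : Finset (Fin n × Fin n)).filter
      (fun p => b.repr (b p.1 * b p.2) l = 1)) (fun p x' => x' p.1 && bit b z p.2) x := by
  classical
  unfold xsum
  unfold bit
  rw [decide_eq_decide]
  have h1 : b.repr (emb b x * z) l = ∑ p : Fin n × Fin n,
      bz (x p.1) * b.repr z p.2 * b.repr (b p.1 * b p.2) l := by
    have hz : z = ∑ j, b.repr z j • b j := (b.sum_repr z).symm
    conv_lhs => rw [hz]
    unfold emb
    rw [Finset.sum_mul_sum, Fintype.sum_prod_type, map_sum, Finsupp.finsetSum_apply]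
    refine Finset.sum_congr rfl fun i _ => ?_
    rw [map_sum, Finsupp.finsetSum_apply]
    refine Finset.sum_congr rfl fun j _ => ?_
    rw [smul_mul_smul_comm, map_smul, Finsupp.smul_apply, smul_eq_mul]
  have h2 : ∀ a c d : ZMod 2, a * c * d =
      if (d = 1 ∧ (decide (a = 1) && decide (c = 1)) = true) then 1 else 0 := by decide
  have h3 : b.repr (emb b x * z) l = (((((univ : Finset (Fin n × Fin n)).filter
      (fun p => b.repr (b p.1 * b p.2) l = 1)).filter
      (fun p => (x p.1 && decide (b.repr z p.2 = 1)) = true)).card : ℕ) : ZMod 2) := by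
    rw [h1, Finset.filter_filter, Finset.card_filter, Nat.cast_sum]
    refine Finset.sum_congr rfl fun p _ => ?_
    rw [h2, decide_bz]
    split_ifs <;> simp
  rw [h3, ZMod.natCast_eq_one_iff_odd, Nat.odd_iff]

/-- One step of the evaluation of a polynomial. -/
theorem ext_step {L : List ((Fin n → Bool) → Bool)} (hL : Circ L)
    (h0 : Av L (fun _ => false)) (Z : (Fin n → Bool) → K)
    (hZ : ∀ l, Av L (fun x => bit b (Z x) l)) (c : K) :
    ∃ L', Ext L L' (4 * n ^ 3) ∧ ∀ l, Av L' (fun x => bit b (c + emb b x * Z x) l) := by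
  classical
  obtain ⟨L', h1, h2⟩ := ext_many (univ : Finset (Fin n))
    (fun l x => bit b (c + emb b x * Z x) l) (4 * n ^ 2) hL (by
      intro l _ L1 hL1 hsub
      obtain ⟨L2, h3, h4⟩ := ext_xsum ((univ : Finset (Fin n × Fin n)).filter
        (fun p => b.repr (b p.1 * b p.2) l = 1)) (fun p x => x p.1) (fun p x => bit b (Z x) p.2)
        hL1 (h0.mono hsub) (fun p _ => Av.var p.1) (fun p _ => (hZ p.2).mono hsub)
      refine ⟨L2, h3.mono ?_, ?_⟩
      · apply Nat.mul_le_mul_left
        refine (Finset.card_filter_le _ _).trans ?_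
        rw [Finset.card_univ, Fintype.card_prod, Fintype.card_fin, sq]
      · have h5 := h4.xor_const (bit b c l)
        convert h5 using 1
        funext x
        rw [bit_add, bit_mul]
        rfl)
  refine ⟨L', h1.mono ?_, fun l => h2 l (Finset.mem_univ _)⟩
  rw [Finset.card_univ, Fintype.card_fin]
  apply le_of_eq
  ring

theorem famF_size (l0 : Fin n) (k : ℕ) (y : Fin k → K) :
    HasSize (famF b l0 k y) (1 + k * (4 * n ^ 3)) := by
  classical
  have hn : 0 < n := lt_of_le_of_lt (Nat.zero_le _) l0.2
  have key : ∀ (k : ℕ) (y : Fin k → K), ∃ L : List ((Fin n → Bool) → Bool), Circ L ∧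
      L.length ≤ 1 + k * (4 * n ^ 3) ∧ Av L (fun _ => false) ∧
      ∀ l, Av L (fun x => bit b (∑ i : Fin k, y i * emb b x ^ (i : ℕ)) l) := by
    intro k
    induction k with
    | zero =>
      intro y
      obtain ⟨L, h1, h2⟩ := ext_false hn (Circ.nil (n := n))
      refine ⟨L, h1.1, ?_, h2, ?_⟩
      · have := h1.2.2
        simpa using this
      · intro l
        convert h2 using 1
        funext x
        simp [bit]
    | succ k ih =>
      intro y
      obtain ⟨L, h1, h2, h3, h4⟩ := ih (fun i => y i.succ)
      obtain ⟨L', h5, h6⟩ := ext_step b h1 h3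
        (fun x => ∑ i : Fin k, y i.succ * emb b x ^ (i : ℕ)) h4 (y 0)
      refine ⟨L', h5.1, ?_, h3.mono h5.2.1, ?_⟩
      · have := h5.2.2
        nlinarith
      · intro l
        convert h6 l using 1
        funext x
        congr 1
        rw [Fin.sum_univ_succ, Finset.mul_sum]
        congr 1
        · simp
        · refine Finset.sum_congr rfl fun i _ => ?_
          rw [Fin.val_succ, pow_succ]
          ring
  obtain ⟨L, h1, h2, _, h4⟩ := key k y
  exact ⟨L, h1, h2, h4 l0⟩

end Field

/-- A family of small circuits with limited independence. -/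
theorem exists_family (n : ℕ) (hn : 0 < n) (k : ℕ) (hk : 0 < k) :
    ∃ (Ω : Type) (_ : Fintype Ω) (_ : Nonempty Ω) (F : Ω → (Fin n → Bool) → Bool),
      UnifOff F (univ : Finset Ω) k ∅ ∧ ∀ ω, HasSize (F ω) (1 + k * (4 * n ^ 3)) := by
  classical
  let K := GaloisField 2 n
  have : Fintype K := Fintype.ofFinite K
  have hfin : Module.finrank (ZMod 2) K = n := GaloisField.finrank 2 hn.ne'
  let b : Module.Basis (Fin n) (ZMod 2) K := Module.finBasisOfFinrankEq (ZMod 2) K hfin
  exact ⟨Fin k → K, inferInstance, inferInstance, famF b ⟨0, hn⟩ k, famF_unif b ⟨0, hn⟩ k hk,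
    fun y => famF_size b ⟨0, hn⟩ k y⟩

end Pool.Agent.Helper80K3
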