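import Pool.Agent.Helper80K3.Approx
import Pool.Agent.Helper80K3.Easy

/-!
Partial truth tables and the choice of the parameters.
-/

namespace Pool.Agent.Helper80K3

open Finset

/-- A partial truth table of arity `n`; `none` is an undefined entry. -/
abbrev PTable (n : ℕ) := (Fin n → Bool) → Option Bool

/-- The number of defined entries. -/
def defd {n : ℕ} (T : PTable n) : ℕ := (univ.filter (fun x => (T x).isSome = true)).card

/-- The function `g` agrees with all defined entries of `T`. -/
def Consistent {n : ℕ} (T : PTable n) (g : (Fin n → Bool) → Bool) : Prop :=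
  ∀ x b, T x = some b → g x = b

/-- The Boolean input of a monotone circuit: the variable `(x, b)` says that `T x = b`. -/
def enc {n : ℕ} (T : PTable n) : (Fin n → Bool) × Bool → Bool := fun e => decide (T e.1 = some e.2)

theorem HasSize.mono {n : ℕ} {g : (Fin n → Bool) → Bool} {s s' : ℕ} (h : HasSize g s)
    (hs : s ≤ s') : HasSize g s' := by
  obtain ⟨L, h1, h2, h3⟩ := h
  exact ⟨L, h1, h2.trans hs, h3⟩

section Samples

variable {n M : ℕ}

/-- The table of a sample. -/
def tab (θ : Fin M → (Fin n → Bool) × Bool) : PTable n := fun x =>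
  if (x, true) ∈ Gs θ then some true else if (x, false) ∈ Gs θ then some false else none

theorem tab_eq {θ : Fin M → (Fin n → Bool) × Bool} (h : Cons (Gs θ)) (x : Fin n → Bool)
    (b : Bool) : tab θ x = some b ↔ (x, b) ∈ Gs θ := by
  unfold tab
  constructor
  · intro hx
    split_ifs at hx with h1 h2
    · rw [Option.some.injEq] at hx
      rw [← hx]; exact h1
    · rw [Option.some.injEq] at hx
      rw [← hx]; exact h2
  · intro hx
    cases b with
    | true => rw [if_pos hx]
    | false =>
      rw [if_neg, if_pos hx]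
      intro h1
      exact Bool.noConfusion (h _ h1 _ hx rfl)

theorem enc_tab {θ : Fin M → (Fin n → Bool) × Bool} (h : Cons (Gs θ)) :
    enc (tab θ) = inp (Gs θ) := by
  funext e
  unfold enc inp
  rw [decide_eq_decide]
  exact tab_eq h e.1 e.2

theorem enc_total (g : (Fin n → Bool) → Bool) : enc (fun x => some (g x)) = inpf g := by
  funext e
  unfold enc inpf
  simp

theorem inj_cons {θ : Fin M → (Fin n → Bool) × Bool}
    (h : Function.Injective (fun i => (θ i).1)) : Cons (Gs θ) := by
  intro e he e' he' hee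
  obtain ⟨i, _, rfl⟩ := Finset.mem_image.mp he
  obtain ⟨j, _, rfl⟩ := Finset.mem_image.mp he'
  have : i = j := h hee
  rw [this]

theorem defd_tab {θ : Fin M → (Fin n → Bool) × Bool}
    (h : Function.Injective (fun i => (θ i).1)) : defd (tab θ) = M := by
  have hc := inj_cons h
  have h1 : univ.filter (fun x => (tab θ x).isSome = true) =
      (univ : Finset (Fin M)).image (fun i => (θ i).1) := by
    ext x
    rw [Finset.mem_filter, Finset.mem_image, Option.isSome_iff_exists]
    constructor
    · rintro ⟨_, b, hb⟩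
      rw [tab_eq hc] at hb
      obtain ⟨i, _, hi⟩ := Finset.mem_image.mp hb
      exact ⟨i, Finset.mem_univ _, by rw [hi]⟩
    · rintro ⟨i, _, rfl⟩
      refine ⟨Finset.mem_univ _, (θ i).2, ?_⟩
      rw [tab_eq hc]
      exact Finset.mem_image_of_mem _ (Finset.mem_univ i)
  unfold defd
  rw [h1, Finset.card_image_of_injective _ h, Finset.card_univ, Fintype.card_fin]

theorem cons_tab {θ : Fin M → (Fin n → Bool) × Bool}
    (h : Function.Injective (fun i => (θ i).1)) {g : (Fin n → Bool) → Bool}
    (hg : Consistent (tab θ) g) : ∀ i, g (θ i).1 = (θ i).2 := by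
  intro i
  apply hg
  rw [tab_eq (inj_cons h)]
  exact Finset.mem_image_of_mem _ (Finset.mem_univ i)

/-- Samples consistent with a function. -/
theorem card_fit (g : (Fin n → Bool) → Bool) :
    ((univ : Finset (Fin M → (Fin n → Bool) × Bool)).filter
      (fun θ => ∀ i, g (θ i).1 = (θ i).2)).card * 2 ^ M =
      Fintype.card (Fin M → (Fin n → Bool) × Bool) := by
  classical
  have h1 : (univ : Finset (Fin M → (Fin n → Bool) × Bool)).filter
      (fun θ => ∀ i, g (θ i).1 = (θ i).2) =
      (univ : Finset (Fin M → (Fin n → Bool))).image (fun ξ i => (ξ i, g (ξ i))) := by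
    ext θ
    rw [Finset.mem_filter, Finset.mem_image]
    constructor
    · rintro ⟨_, h⟩
      refine ⟨fun i => (θ i).1, Finset.mem_univ _, ?_⟩
      funext i
      exact Prod.ext rfl (h i)
    · rintro ⟨ξ, _, rfl⟩
      exact ⟨Finset.mem_univ _, fun i => rfl⟩
  have h2 : Function.Injective (fun (ξ : Fin M → (Fin n → Bool)) (i : Fin M) => (ξ i, g (ξ i))) := by
    intro ξ ξ' h
    funext i
    have := congrFun h i
    exact (Prod.mk.injEq _ _ _ _ ▸ this).1
  have h3 : Fintype.card (Fin M → (Fin n → Bool) × Bool) =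
      (Fintype.card (Fin n → Bool) * 2) ^ M := by
    rw [Fintype.card_fun, Fintype.card_prod, Fintype.card_bool, Fintype.card_fin]
  have h4 : Fintype.card (Fin M → (Fin n → Bool)) = (Fintype.card (Fin n → Bool)) ^ M := by
    rw [Fintype.card_fun (α := Fin M), Fintype.card_fin M]
  rw [h1, Finset.card_image_of_injective _ h2, Finset.card_univ, h3, h4, mul_pow]

/-- Samples with a repeated point. -/
theorem card_coll (i j : Fin M) (hij : i ≠ j) :
    ((univ : Finset (Fin M → (Fin n → Bool) × Bool)).filter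
      (fun θ => (θ i).1 = (θ j).1)).card * 2 ^ n ≤
      Fintype.card (Fin M → (Fin n → Bool) × Bool) := by
  classical
  have h1 : 2 ^ n = (univ : Finset (Fin n → Bool)).card := by
    rw [Finset.card_univ, Fintype.card_fun, Fintype.card_bool, Fintype.card_fin]
  rw [h1, ← Finset.card_product, ← Finset.card_univ (α := Fin M → (Fin n → Bool) × Bool)]
  apply Finset.card_le_card_of_injOn (fun p => Function.update p.1 j (p.2, (p.1 j).2))
  · intro p _
    exact Finset.mem_coe.mpr (Finset.mem_univ _)
  · rintro ⟨θ, c⟩ hp ⟨θ', c'⟩ hp' heq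
    rw [Finset.mem_coe, Finset.mem_product, Finset.mem_filter] at hp hp'
    simp only at heq hp hp'
    have hj := congrFun heq j
    rw [Function.update_self, Function.update_self, Prod.mk.injEq] at hj
    have hi := congrFun heq i
    rw [Function.update_of_ne hij, Function.update_of_ne hij] at hi
    have hθ : θ = θ' := by
      funext l
      by_cases hl : l = j
      · rw [hl]
        refine Prod.ext ?_ hj.2
        rw [← hp.1.2, ← hp'.1.2, hi]
      · have := congrFun heq l
        rwa [Function.update_of_ne hl, Function.update_of_ne hl] at this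
    rw [hθ, hj.1]

theorem card_noninj :
    ((univ : Finset (Fin M → (Fin n → Bool) × Bool)).filter
      (fun θ => ¬ Function.Injective (fun i => (θ i).1))).card * 2 ^ n ≤
      M ^ 2 * Fintype.card (Fin M → (Fin n → Bool) × Bool) := by
  classical
  have hsub : (univ : Finset (Fin M → (Fin n → Bool) × Bool)).filter
      (fun θ => ¬ Function.Injective (fun i => (θ i).1)) ⊆
      ((univ : Finset (Fin M × Fin M)).filter (fun p => p.1 ≠ p.2)).biUnion
        (fun p => (univ : Finset (Fin M → (Fin n → Bool) × Bool)).filter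
          (fun θ => (θ p.1).1 = (θ p.2).1)) := by
    intro θ hθ
    rw [Finset.mem_filter] at hθ
    have h := hθ.2
    unfold Function.Injective at h
    push Not at h
    obtain ⟨i, j, h1, h2⟩ := h
    rw [Finset.mem_biUnion]
    exact ⟨(i, j), Finset.mem_filter.mpr ⟨Finset.mem_univ _, h2⟩,
      Finset.mem_filter.mpr ⟨Finset.mem_univ _, h1⟩⟩
  calc _ ≤ (∑ p ∈ (univ : Finset (Fin M × Fin M)).filter (fun p => p.1 ≠ p.2),
        ((univ : Finset (Fin M → (Fin n → Bool) × Bool)).filter
          (fun θ => (θ p.1).1 = (θ p.2).1)).card) * 2 ^ n := by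
        apply Nat.mul_le_mul_right
        exact (Finset.card_le_card hsub).trans Finset.card_biUnion_le
    _ = ∑ p ∈ (univ : Finset (Fin M × Fin M)).filter (fun p => p.1 ≠ p.2),
        ((univ : Finset (Fin M → (Fin n → Bool) × Bool)).filter
          (fun θ => (θ p.1).1 = (θ p.2).1)).card * 2 ^ n := by rw [Finset.sum_mul]
    _ ≤ ∑ _p ∈ (univ : Finset (Fin M × Fin M)).filter (fun p => p.1 ≠ p.2),
        Fintype.card (Fin M → (Fin n → Bool) × Bool) := by
        apply Finset.sum_le_sum
        intro p hp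
        rw [Finset.mem_filter] at hp
        exact card_coll p.1 p.2 hp.2
    _ = ((univ : Finset (Fin M × Fin M)).filter (fun p => p.1 ≠ p.2)).card *
        Fintype.card (Fin M → (Fin n → Bool) × Bool) := by
        rw [Finset.sum_const, smul_eq_mul]
    _ ≤ _ := by
        apply Nat.mul_le_mul_right
        refine (Finset.card_filter_le _ _).trans ?_
        rw [Finset.card_univ, Fintype.card_prod, Fintype.card_fin, sq]

end Samples

/-- The number of small partial functions. -/
theorem card_Tm (X : Type) [DecidableEq X] [Fintype X] (w : ℕ) :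
    (Tm X w).card ≤ (Fintype.card (X × Bool) + 1) ^ w := by
  classical
  let f : (Fin w → Option (X × Bool)) → Finset (X × Bool) :=
    fun θ => univ.filter (fun a => ∃ i, θ i = some a)
  have hsub : Tm X w ⊆ (univ : Finset (Fin w → Option (X × Bool))).image f := by
    intro S hS
    have hc := (mem_Tm.mp hS).1
    rw [Finset.mem_image]
    let e := S.equivFin
    refine ⟨fun i => if h : (i : ℕ) < S.card then some (e.symm ⟨i, h⟩).1 else none,
      Finset.mem_univ _, ?_⟩
    ext a
    simp only [f, Finset.mem_filter, Finset.mem_univ, true_and]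
    constructor
    · rintro ⟨i, hi⟩
      split_ifs at hi with h
      rw [Option.some.injEq] at hi
      rw [← hi]
      exact (e.symm ⟨i, h⟩).2
    · intro ha
      refine ⟨⟨(e ⟨a, ha⟩).1, lt_of_lt_of_le (e ⟨a, ha⟩).2 hc⟩, ?_⟩
      rw [dif_pos (e ⟨a, ha⟩).2]
      simp
  refine (Finset.card_le_card hsub).trans (Finset.card_image_le.trans ?_)
  rw [Finset.card_univ, Fintype.card_fun, Fintype.card_fin, Fintype.card_option]

theorem n_large {n w s s' : ℕ} (hn : 1 ≤ n) (hw : 1 ≤ w) (h1 : 9 * n ^ 4 * w ^ 2 ≤ s)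
    (h2 : s ≤ s') (h3 : n ^ 2 * s' ≤ 2 ^ (n / 3)) : 29 ≤ n := by
  by_contra hcon
  push Not at hcon
  have h4 : n ^ 2 * (9 * n ^ 4) ≤ 2 ^ (n / 3) := by
    refine le_trans ?_ h3
    apply Nat.mul_le_mul_left
    refine le_trans ?_ (h1.trans h2)
    exact Nat.le_mul_of_pos_right _ (by positivity)
  interval_cases n <;> norm_num at h4

/-- The main theorem. -/
theorem main {n w s s' : ℕ} (hn1 : 1 ≤ n) (hw : 1 ≤ w) (hs : 9 * n ^ 4 * w ^ 2 ≤ s)
    (hss : s ≤ s') (hs' : n ^ 2 * s' ≤ 2 ^ (n / 3))
    {L : List (((Fin n → Bool) × Bool → Bool) → Bool)} (hL : MProg L)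
    {φ : ((Fin n → Bool) × Bool → Bool) → Bool} (hφ : MAv L φ)
    (hrej : ∀ g : (Fin n → Bool) → Bool, HasSize g s → φ (enc (fun x => some (g x))) = false)
    (hacc : ∀ T : PTable n, defd T = 2 ^ (n / 3) → (∀ g, HasSize g s' → ¬ Consistent T g) →
      φ (enc T) = true) : 2 ^ w ≤ L.length := by
  classical
  have hn : 29 ≤ n := n_large hn1 hw hs hss hs'
  have hspos : 1 ≤ s' := by
    refine le_trans ?_ (hs.trans hss)
    have : 0 < 9 * n ^ 4 * w ^ 2 := by positivity
    omega
  set m := 2 * ((n + 3) * w) with hm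
  have hnw : 1 ≤ (n + 3) * w := Nat.succ_le_of_lt (by positivity)
  have hmev : Even m := ⟨(n + 3) * w, by rw [hm]; ring⟩
  set q := m - 1 with hq
  have hmq : m = q + 1 := by omega
  have hnw2 : 2 ≤ (n + 3) * w := by nlinarith
  have hq2 : 2 ≤ q := by omega
  set k := (m + 1) * w with hk
  have hkpos : 0 < k := by rw [hk]; positivity
  obtain ⟨Ω, hΩ1, hΩ2, F, hU, hsize⟩ := exists_family n (by omega) k hkpos
  have hksize : 1 + k * (4 * n ^ 3) ≤ s := by
    refine le_trans ?_ hs
    have hww : w ≤ w ^ 2 := by nlinarith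
    have h1 : k ≤ (2 * n + 7) * w ^ 2 := by
      have : k = 2 * (n + 3) * w ^ 2 + w := by rw [hk, hm]; ring
      rw [this]
      nlinarith
    have h2 : k * (4 * n ^ 3) ≤ (2 * n + 7) * w ^ 2 * (4 * n ^ 3) := Nat.mul_le_mul_right _ h1
    have h3 : (2 * n + 7) * w ^ 2 * (4 * n ^ 3) = 8 * n ^ 4 * w ^ 2 + 28 * (n ^ 3 * w ^ 2) := by
      ring
    have h4 : 29 * (n ^ 3 * w ^ 2) ≤ n ^ 4 * w ^ 2 := by
      calc 29 * (n ^ 3 * w ^ 2) ≤ n * (n ^ 3 * w ^ 2) := Nat.mul_le_mul_right _ hn
        _ = n ^ 4 * w ^ 2 := by ring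
    have h5 : 1 ≤ n ^ 3 * w ^ 2 := Nat.succ_le_of_lt (by positivity)
    have h6 : 9 * n ^ 4 * w ^ 2 = 8 * n ^ 4 * w ^ 2 + n ^ 4 * w ^ 2 := by ring
    omega
  -- cardinals
  have hX : Fintype.card (Fin n → Bool) = 2 ^ n := by
    rw [Fintype.card_fun, Fintype.card_bool, Fintype.card_fin]
  have hA : Fintype.card ((Fin n → Bool) × Bool) = 2 ^ (n + 1) := by
    rw [Fintype.card_prod, Fintype.card_bool, hX, pow_succ]
  set M := 2 ^ (n / 3) with hM
  set N := Fintype.card (Fin M → (Fin n → Bool) × Bool) with hN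
  have hM2 : 8 * M ^ 2 ≤ 2 ^ n := by
    rw [hM, ← pow_mul]
    calc 8 * 2 ^ (n / 3 * 2) = 2 ^ (3 + n / 3 * 2) := by rw [pow_add]; norm_num
      _ ≤ 2 ^ n := Nat.pow_le_pow_right (by norm_num) (by omega)
  -- condition h1
  have hc1 : 2 ^ w * (Tm (Fin n → Bool) w).card ≤ 2 ^ q := by
    have h1 := card_Tm (Fin n → Bool) w
    rw [hA] at h1
    have h2 : 2 ^ (n + 1) + 1 ≤ 2 ^ (n + 2) := by
      have : 1 ≤ 2 ^ (n + 1) := Nat.one_le_two_pow
      rw [pow_succ 2 (n + 1)]
      omega
    calc 2 ^ w * (Tm (Fin n → Bool) w).card ≤ 2 ^ w * (2 ^ (n + 2)) ^ w := by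
          apply Nat.mul_le_mul_left
          exact h1.trans (Nat.pow_le_pow_left h2 w)
      _ = 2 ^ ((n + 3) * w) := by
          rw [← pow_mul, ← pow_add]
          congr 1
          ring
      _ ≤ 2 ^ q := Nat.pow_le_pow_right (by norm_num) (by omega)
  -- condition h2
  have hc2 : 8 * (1024 * m * w) ^ 2 * M ≤ Fintype.card ((Fin n → Bool) × Bool) := by
    rw [hA]
    have h1 : 9 * (n ^ 6 * w ^ 2) ≤ M := by
      refine le_trans ?_ hs'
      calc 9 * (n ^ 6 * w ^ 2) = n ^ 2 * (9 * n ^ 4 * w ^ 2) := by ring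
        _ ≤ n ^ 2 * s' := Nat.mul_le_mul_left _ (hs.trans hss)
    have h2 : 81 * n ^ 12 * w ^ 4 ≤ M ^ 2 := by
      calc 81 * n ^ 12 * w ^ 4 = (9 * (n ^ 6 * w ^ 2)) ^ 2 := by ring
        _ ≤ M ^ 2 := Nat.pow_le_pow_left h1 2
    have h3 : 8 * (1024 * m * w) ^ 2 = 33554432 * ((n + 3) ^ 2 * w ^ 4) := by
      rw [hm]; ring
    have h4 : 33554432 * ((n + 3) ^ 2 * w ^ 4) ≤ 81 * n ^ 12 * w ^ 4 := by
      have h5 : 33554432 * (n + 3) ^ 2 ≤ 81 * n ^ 12 := by
        have h6 : (n + 3) ^ 2 ≤ (2 * n) ^ 2 := Nat.pow_le_pow_left (by omega) 2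
        have h7 : 29 ^ 10 ≤ n ^ 10 := Nat.pow_le_pow_left hn 10
        calc 33554432 * (n + 3) ^ 2 ≤ 33554432 * (2 * n) ^ 2 := Nat.mul_le_mul_left _ h6
          _ = 134217728 * n ^ 2 := by ring
          _ ≤ (81 * 29 ^ 10) * n ^ 2 := by
              apply Nat.mul_le_mul_right
              norm_num
          _ ≤ (81 * n ^ 10) * n ^ 2 := by
              apply Nat.mul_le_mul_right
              exact Nat.mul_le_mul_left _ h7
          _ = 81 * n ^ 12 := by ring
      calc 33554432 * ((n + 3) ^ 2 * w ^ 4) = (33554432 * (n + 3) ^ 2) * w ^ 4 := by ring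
        _ ≤ (81 * n ^ 12) * w ^ 4 := Nat.mul_le_mul_right _ h5
    rw [h3]
    calc 33554432 * ((n + 3) ^ 2 * w ^ 4) * M ≤ M ^ 2 * M :=
          Nat.mul_le_mul_right _ (h4.trans h2)
      _ = 2 ^ (n / 3 * 3) := by rw [hM]; rw [pow_mul]; ring
      _ ≤ 2 ^ (n + 1) := Nat.pow_le_pow_right (by norm_num) (by omega)
  -- the sample set
  set W := (univ : Finset (Fin M → (Fin n → Bool) × Bool)).filter (fun θ =>
    Function.Injective (fun i => (θ i).1) ∧
      ∀ g ∈ easyF n s', ¬ ∀ i, g (θ i).1 = (θ i).2) with hWdef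
  have hWinj : ∀ θ ∈ W, Function.Injective (fun i => (θ i).1) := by
    intro θ hθ
    rw [hWdef, Finset.mem_filter] at hθ
    exact hθ.2.1
  apply mono_bound (F := F) (q := q) (M := M) hmev hmq hq2 hU le_rfl hw hc1 hc2 hL hφ
    (W := W)
  · intro ω
    rw [← enc_total]
    exact hrej _ ((hsize ω).mono hksize)
  · intro θ hθ
    exact inj_cons (hWinj θ hθ)
  · intro θ hθ
    rw [← enc_tab (inj_cons (hWinj θ hθ))]
    apply hacc
    · exact defd_tab (hWinj θ hθ)
    · intro g hg hcons
      have hθ' := hθ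
      rw [hWdef, Finset.mem_filter] at hθ'
      exact hθ'.2.2 g (mem_easyF hg) (cons_tab (hWinj θ hθ) hcons)
  · -- the size of the sample set
    set B1 := (univ : Finset (Fin M → (Fin n → Bool) × Bool)).filter
      (fun θ => ¬ Function.Injective (fun i => (θ i).1)) with hB1
    set B2 := (easyF n s').biUnion (fun g =>
      (univ : Finset (Fin M → (Fin n → Bool) × Bool)).filter
        (fun θ => ∀ i, g (θ i).1 = (θ i).2)) with hB2
    have hcover : (univ : Finset (Fin M → (Fin n → Bool) × Bool)) ⊆ W ∪ (B1 ∪ B2) := by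
      intro θ _
      by_cases h1 : Function.Injective (fun i => (θ i).1)
      · by_cases h2 : ∀ g ∈ easyF n s', ¬ ∀ i, g (θ i).1 = (θ i).2
        · apply Finset.mem_union_left
          rw [hWdef, Finset.mem_filter]
          exact ⟨Finset.mem_univ _, h1, h2⟩
        · push Not at h2
          obtain ⟨g, hg, hfit⟩ := h2
          apply Finset.mem_union_right
          apply Finset.mem_union_right
          rw [hB2, Finset.mem_biUnion]
          exact ⟨g, hg, Finset.mem_filter.mpr ⟨Finset.mem_univ _, hfit⟩⟩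
      · apply Finset.mem_union_right
        apply Finset.mem_union_left
        rw [hB1, Finset.mem_filter]
        exact ⟨Finset.mem_univ _, h1⟩
    have hcount := (Finset.card_le_card hcover).trans
      ((Finset.card_union_le _ _).trans (Nat.add_le_add_left (Finset.card_union_le _ _) _))
    rw [Finset.card_univ, ← hN] at hcount
    have hb1 : 4 * B1.card ≤ N := by
      have h1 := card_noninj (n := n) (M := M)
      rw [← hB1, ← hN] at h1
      have h2 : (4 * B1.card) * 2 ^ n ≤ N * 2 ^ n := by
        calc (4 * B1.card) * 2 ^ n = 4 * (B1.card * 2 ^ n) := by ring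
          _ ≤ 4 * (M ^ 2 * N) := Nat.mul_le_mul_left _ h1
          _ ≤ (8 * M ^ 2) * N := by nlinarith [Nat.zero_le (M ^ 2 * N)]
          _ ≤ 2 ^ n * N := Nat.mul_le_mul_right _ hM2
          _ = N * 2 ^ n := Nat.mul_comm _ _
      exact Nat.le_of_mul_le_mul_right h2 (by positivity)
    have hb2 : 4 * B2.card ≤ N := by
      have h1 : B2.card * 2 ^ M ≤ (easyF n s').card * N := by
        calc B2.card * 2 ^ M ≤ (∑ g ∈ easyF n s',
              ((univ : Finset (Fin M → (Fin n → Bool) × Bool)).filter
                (fun θ => ∀ i, g (θ i).1 = (θ i).2)).card) * 2 ^ M :=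
              Nat.mul_le_mul_right _ Finset.card_biUnion_le
          _ = ∑ g ∈ easyF n s', ((univ : Finset (Fin M → (Fin n → Bool) × Bool)).filter
                (fun θ => ∀ i, g (θ i).1 = (θ i).2)).card * 2 ^ M := by rw [Finset.sum_mul]
          _ = ∑ _g ∈ easyF n s', N := by
              refine Finset.sum_congr rfl fun g _ => ?_
              exact card_fit g
          _ = (easyF n s').card * N := by rw [Finset.sum_const, smul_eq_mul]
      have h2 : 4 * (easyF n s').card ≤ 2 ^ M := by
        have h3 := card_easyF (n := n) (by omega) s'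
        have h10 : s' ≤ n * s' := Nat.le_mul_of_pos_left _ (by omega)
        have h11 : n ≤ n * s' := Nat.le_mul_of_pos_right _ (by omega)
        have h12 : 29 * (n * s') ≤ n ^ 2 * s' := by
          calc 29 * (n * s') ≤ n * (n * s') := Nat.mul_le_mul_right _ hn
            _ = n ^ 2 * s' := by ring
        have h4 : s' + n ≤ M := by omega
        have h5 : 8 * (s' + n) ^ 2 ≤ 2 ^ n := by
          refine le_trans ?_ hM2
          exact Nat.mul_le_mul_left _ (Nat.pow_le_pow_left h4 2)
        have h6 : 2 + n * (s' + 1) ≤ M := by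
          have h13 : n * (s' + 1) = n * s' + n := by ring
          omega
        calc 4 * (easyF n s').card ≤ 4 * (8 * (s' + n) ^ 2) ^ (s' + 1) :=
              Nat.mul_le_mul_left _ h3
          _ ≤ 4 * (2 ^ n) ^ (s' + 1) := by
              apply Nat.mul_le_mul_left
              exact Nat.pow_le_pow_left h5 _
          _ = 2 ^ (2 + n * (s' + 1)) := by
              rw [← pow_mul, pow_add]
              norm_num
          _ ≤ 2 ^ M := Nat.pow_le_pow_right (by norm_num) h6
      have h3 : (4 * B2.card) * 2 ^ M ≤ N * 2 ^ M := by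
        calc (4 * B2.card) * 2 ^ M = 4 * (B2.card * 2 ^ M) := by ring
          _ ≤ 4 * ((easyF n s').card * N) := Nat.mul_le_mul_left _ h1
          _ = (4 * (easyF n s').card) * N := by ring
          _ ≤ 2 ^ M * N := Nat.mul_le_mul_right _ h2
          _ = N * 2 ^ M := Nat.mul_comm _ _
      exact Nat.le_of_mul_le_mul_right h3 (by positivity)
    omega

end Pool.Agent.Helper80K3
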