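import Pool.Agent.Helper80K3.Spread

/-!
The moment method: a spread family is hit by almost all functions with limited independence.
-/

namespace Pool.Agent.Helper80K3

open Finset

variable {X : Type} [DecidableEq X] {Ω : Type}

/-- Indicator. -/
noncomputable def ind (F : Ω → X → Bool) (ω : Ω) (S : Finset (X × Bool)) : ℝ :=
  if Sat F ω S then 1 else 0

theorem sum_ind (F : Ω → X → Bool) (Ωs : Finset Ω) (S : Finset (X × Bool)) :
    ∑ ω ∈ Ωs, ind F ω S = Nx F Ωs S := by
  unfold ind Nx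
  rw [Finset.sum_ite, Finset.sum_const_zero, add_zero, Finset.sum_const, nsmul_eq_mul, mul_one]

theorem prod_ind {m : ℕ} (F : Ω → X → Bool) (ω : Ω) (j : ℕ) (s : Fin m → Finset (X × Bool))
    (A : Finset (Fin m)) : ∏ i ∈ A, ((2 : ℝ) ^ j * ind F ω (s i)) =
      2 ^ (j * A.card) * ind F ω (A.biUnion s) := by
  rw [Finset.prod_mul_distrib, Finset.prod_const, ← pow_mul]
  congr 1
  unfold ind
  by_cases h : Sat F ω (A.biUnion s)
  · rw [if_pos h]
    rw [sat_biUnion] at h
    apply Finset.prod_eq_one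
    intro i hi
    rw [if_pos (h i hi)]
  · rw [if_neg h]
    rw [sat_biUnion] at h
    push Not at h
    obtain ⟨i, hi, hn⟩ := h
    apply Finset.prod_eq_zero hi
    rw [if_neg hn]

/-- The sum over the functions of a product, in general. -/
theorem sum_prod_le {m : ℕ} {F : Ω → X → Bool} {Ωs : Finset Ω} {k j : ℕ} {Z : Finset X}
    (hU : UnifOff F Ωs k Z) (hmk : m * j ≤ k) (s : Fin m → Finset (X × Bool))
    (hs : ∀ i, (pts (s i)).card = j) (hZ : ∀ i, Disjoint (pts (s i)) Z) :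
    ∑ ω ∈ Ωs, ∏ i, ((2 : ℝ) ^ j * ind F ω (s i) - 1) ≤
      Ωs.card * 2 ^ m * 2 ^ ex pts s := by
  classical
  have hI : ∀ ω S, 0 ≤ ind F ω S := by
    intro ω S
    unfold ind
    split_ifs <;> norm_num
  have h1 : ∀ ω ∈ Ωs, ∏ i, ((2 : ℝ) ^ j * ind F ω (s i) - 1) ≤
      ∏ i, ((2 : ℝ) ^ j * ind F ω (s i) + 1) := by
    intro ω _
    refine (le_abs_self _).trans ?_
    rw [Finset.abs_prod]
    apply Finset.prod_le_prod (fun i _ => abs_nonneg _)
    intro i _
    have := mul_nonneg (by positivity : (0 : ℝ) ≤ 2 ^ j) (hI ω (s i))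
    rw [abs_le]
    constructor <;> linarith
  refine (Finset.sum_le_sum h1).trans ?_
  have h2 : ∀ ω ∈ Ωs, ∏ i, ((2 : ℝ) ^ j * ind F ω (s i) + 1) =
      ∑ A ∈ (univ : Finset (Fin m)).powerset, 2 ^ (j * A.card) * ind F ω (A.biUnion s) := by
    intro ω _
    rw [Finset.prod_add_one]
    exact Finset.sum_congr rfl fun A _ => prod_ind F ω j s A
  rw [Finset.sum_congr rfl h2, Finset.sum_comm]
  have hUa : (Ua pts s).card + ex pts s = m * j := by
    have := ex_eq pts s
    simp only [hs, Finset.sum_const, Finset.card_univ, Fintype.card_fin, smul_eq_mul] at this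
    omega
  have h3 : ∀ A ∈ (univ : Finset (Fin m)).powerset,
      ∑ ω ∈ Ωs, (2 : ℝ) ^ (j * A.card) * ind F ω (A.biUnion s) ≤
        Ωs.card * 2 ^ ex pts s := by
    intro A _
    rw [← Finset.mul_sum, sum_ind]
    have hcardA : (pts (A.biUnion s)).card ≤ A.card * j := by
      rw [pts_biUnion]
      refine Finset.card_biUnion_le.trans ?_
      simp [hs]
    have hAm : A.card ≤ m := by
      have := Finset.card_le_univ A
      simpa using this
    have hk : (pts (A.biUnion s)).card ≤ k := hcardA.trans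
      ((Nat.mul_le_mul_right _ hAm).trans hmk)
    have hdisj : Disjoint (pts (A.biUnion s)) Z := by
      rw [pts_biUnion, Finset.disjoint_biUnion_left]
      exact fun i _ => hZ i
    have hN := Nx_le hU hk hdisj
    have hsub : (Ua pts s).card ≤ (pts (A.biUnion s)).card + (m - A.card) * j := by
      have h4 : Ua pts s ⊆ pts (A.biUnion s) ∪ Aᶜ.biUnion (fun i => pts (s i)) := by
        intro x hx
        simp only [Ua, Finset.mem_biUnion, Finset.mem_univ, true_and] at hx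
        obtain ⟨i, hi⟩ := hx
        rw [Finset.mem_union, pts_biUnion]
        by_cases hiA : i ∈ A
        · left; exact Finset.mem_biUnion.mpr ⟨i, hiA, hi⟩
        · right; exact Finset.mem_biUnion.mpr ⟨i, Finset.mem_compl.mpr hiA, hi⟩
      refine (Finset.card_le_card h4).trans ((Finset.card_union_le _ _).trans ?_)
      gcongr
      refine Finset.card_biUnion_le.trans ?_
      simp [hs, Finset.card_compl]
    have hexp : j * A.card ≤ ex pts s + (pts (A.biUnion s)).card := by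
      have h5 : (m - A.card) * j + A.card * j = m * j := by
        rw [← Nat.add_mul, Nat.sub_add_cancel hAm]
      rw [Nat.mul_comm]
      omega
    calc (2 : ℝ) ^ (j * A.card) * (Nx F Ωs (A.biUnion s) : ℝ)
        ≤ 2 ^ (ex pts s + (pts (A.biUnion s)).card) * (Nx F Ωs (A.biUnion s) : ℝ) := by
          apply mul_le_mul_of_nonneg_right _ (Nat.cast_nonneg _)
          exact pow_le_pow_right₀ (by norm_num) hexp
      _ = 2 ^ ex pts s * ((Nx F Ωs (A.biUnion s) : ℝ) * 2 ^ (pts (A.biUnion s)).card) := by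
          rw [pow_add]; ring
      _ ≤ 2 ^ ex pts s * Ωs.card := by
          apply mul_le_mul_of_nonneg_left _ (by positivity)
          exact_mod_cast hN
      _ = _ := by ring
  refine (Finset.sum_le_card_nsmul _ _ _ h3).trans ?_
  rw [Finset.card_powerset, Finset.card_univ, Fintype.card_fin, nsmul_eq_mul]
  push_cast
  apply le_of_eq
  ring

/-- The sum over the functions of a product vanishes if there is an isolated member. -/
theorem sum_prod_zero {m : ℕ} {F : Ω → X → Bool} {Ωs : Finset Ω} {k j : ℕ} {Z : Finset X}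
    (hU : UnifOff F Ωs k Z) (hmk : m * j ≤ k) (s : Fin m → Finset (X × Bool))
    (hs : ∀ i, (s i).card = j) (hc : ∀ i, Cons (s i)) (hZ : ∀ i, Disjoint (pts (s i)) Z)
    (h : ¬ NoIso pts s) :
    ∑ ω ∈ Ωs, ∏ i, ((2 : ℝ) ^ j * ind F ω (s i) - 1) = 0 := by
  classical
  unfold NoIso at h
  push Not at h
  obtain ⟨i0, hi0⟩ := h
  have h1 : ∀ ω ∈ Ωs, ∏ i, ((2 : ℝ) ^ j * ind F ω (s i) - 1) =
      ∑ A ∈ (univ.erase i0).powerset, (2 ^ (j * A.card) *
        (2 ^ j * ind F ω (A.biUnion s ∪ s i0) - ind F ω (A.biUnion s))) *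
        ∏ i ∈ (univ.erase i0) \ A, (-1 : ℝ) := by
    intro ω _
    rw [← Finset.mul_prod_erase univ _ (Finset.mem_univ i0)]
    have h2 : ∏ i ∈ univ.erase i0, ((2 : ℝ) ^ j * ind F ω (s i) - 1) =
        ∑ A ∈ (univ.erase i0).powerset, (2 ^ (j * A.card) * ind F ω (A.biUnion s)) *
          ∏ i ∈ (univ.erase i0) \ A, (-1 : ℝ) := by
      simp only [sub_eq_add_neg]
      rw [Finset.prod_add]
      exact Finset.sum_congr rfl fun A _ => by rw [prod_ind]
    rw [h2, Finset.mul_sum]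
    refine Finset.sum_congr rfl fun A _ => ?_
    have h3 : ind F ω (A.biUnion s ∪ s i0) = ind F ω (s i0) * ind F ω (A.biUnion s) := by
      unfold ind
      by_cases ha : Sat F ω (A.biUnion s) <;> by_cases hb : Sat F ω (s i0) <;>
        simp [sat_union, ha, hb]
    rw [h3]; ring
  rw [Finset.sum_congr rfl h1, Finset.sum_comm]
  apply Finset.sum_eq_zero
  intro A hA
  rw [Finset.mem_powerset] at hA
  have hi0A : i0 ∉ A := fun h => Finset.notMem_erase i0 univ (hA h)
  rw [← Finset.sum_mul]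
  have h4 : ∑ ω ∈ Ωs, ((2 : ℝ) ^ (j * A.card) *
      (2 ^ j * ind F ω (A.biUnion s ∪ s i0) - ind F ω (A.biUnion s))) = 0 := by
    rw [← Finset.mul_sum, Finset.sum_sub_distrib, ← Finset.mul_sum, sum_ind, sum_ind]
    have hdisj : Disjoint (pts (A.biUnion s)) (pts (s i0)) := by
      rw [pts_biUnion, Finset.disjoint_biUnion_left]
      intro l hl
      have := hi0 l (fun hh => hi0A (hh ▸ hl))
      rw [Finset.disjoint_iff_inter_eq_empty, Finset.inter_comm]
      exact this
    have hps : ∀ i, (pts (s i)).card = j := fun i => by rw [(hc i).card_pts, hs i]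
    have hA1 : A.card + 1 ≤ m := by
      have h5 : (insert i0 A).card = A.card + 1 := Finset.card_insert_of_notMem hi0A
      have h6 := Finset.card_le_univ (insert i0 A)
      rw [h5] at h6
      simpa using h6
    have hk : (pts (A.biUnion s) ∪ pts (s i0)).card ≤ k := by
      refine (Finset.card_union_le _ _).trans ?_
      have h7 : (pts (A.biUnion s)).card ≤ A.card * j := by
        rw [pts_biUnion]
        refine Finset.card_biUnion_le.trans ?_
        simp [hps]
      have h8 : (A.card + 1) * j ≤ m * j := Nat.mul_le_mul_right _ hA1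
      rw [hps i0]
      nlinarith
    have hdZ : Disjoint (pts (A.biUnion s) ∪ pts (s i0)) Z := by
      rw [Finset.disjoint_union_left]
      refine ⟨?_, hZ i0⟩
      rw [pts_biUnion, Finset.disjoint_biUnion_left]
      exact fun i _ => hZ i
    have h9 := Nx_union hU (hc i0) hk hdZ hdisj
    rw [hs i0] at h9
    have h10 : ((Nx F Ωs (A.biUnion s ∪ s i0) : ℝ)) * 2 ^ j = Nx F Ωs (A.biUnion s) := by
      exact_mod_cast h9
    rw [← h10]; ring
  rw [h4, zero_mul]

/-- The moment method. -/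
theorem moment {m : ℕ} (hm : Even m) {F : Ω → X → Bool} {Ωs : Finset Ω} {k j : ℕ}
    {Z : Finset X} (hU : UnifOff F Ωs k Z) (hmk : m * j ≤ k)
    (𝒮 : Finset (Finset (X × Bool))) (hne : 𝒮.Nonempty) (hs : ∀ S ∈ 𝒮, S.card = j)
    (hc : ∀ S ∈ 𝒮, Cons S) (hZ : ∀ S ∈ 𝒮, Disjoint (pts S) Z)
    (hw : ∀ V : Finset X, V.card ≤ m * j → ∑ S ∈ 𝒮, wt V (pts S) ≤ 2 * 𝒮.card) :
    (Ωs.filter (fun ω => ∀ S ∈ 𝒮, ¬ Sat F ω S)).card * 2 ^ m ≤ 2 * Ωs.card := by
  classical
  set α := {S // S ∈ 𝒮} with hα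
  have hcardα : Fintype.card α = 𝒮.card := Fintype.card_coe 𝒮
  have hcpos : (0 : ℝ) < 𝒮.card := by exact_mod_cast hne.card_pos
  let p : α → Finset X := fun a => pts a.1
  let g : α → Ω → ℝ := fun a ω => 2 ^ j * ind F ω a.1 - 1
  -- lower bound
  have h1 : ((Ωs.filter (fun ω => ∀ S ∈ 𝒮, ¬ Sat F ω S)).card : ℝ) * (𝒮.card : ℝ) ^ m ≤
      ∑ ω ∈ Ωs, (∑ a, g a ω) ^ m := by
    have h2 : ∀ ω ∈ Ωs.filter (fun ω => ∀ S ∈ 𝒮, ¬ Sat F ω S),
        (∑ a, g a ω) ^ m = (𝒮.card : ℝ) ^ m := by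
      intro ω hω
      rw [Finset.mem_filter] at hω
      have h3 : ∑ a, g a ω = -(𝒮.card : ℝ) := by
        have : ∀ a : α, g a ω = -1 := by
          intro a
          simp only [g, ind]
          rw [if_neg (hω.2 a.1 a.2)]
          ring
        rw [Finset.sum_congr rfl fun a _ => this a]
        simp [hcardα]
      rw [h3, hm.neg_pow]
    calc _ = ∑ ω ∈ Ωs.filter (fun ω => ∀ S ∈ 𝒮, ¬ Sat F ω S), (∑ a, g a ω) ^ m := by
          rw [Finset.sum_congr rfl h2, Finset.sum_const, nsmul_eq_mul]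
      _ ≤ _ := by
          apply Finset.sum_le_sum_of_subset_of_nonneg (Finset.filter_subset _ _)
          intro ω _ _
          exact hm.pow_nonneg _
  -- expansion
  have h2 : ∑ ω ∈ Ωs, (∑ a, g a ω) ^ m =
      ∑ s : Fin m → α, ∑ ω ∈ Ωs, ∏ i, g (s i) ω := by
    rw [Finset.sum_comm]
    refine Finset.sum_congr rfl fun ω _ => ?_
    rw [Fintype.sum_pow]
  have hex : ∀ s : Fin m → α, ex p s = ex pts (fun i => (s i).1) := by
    intro s; rfl
  have hni : ∀ s : Fin m → α, NoIso p s ↔ NoIso pts (fun i => (s i).1) := by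
    intro s; rfl
  have h3 : ∑ s : Fin m → α, ∑ ω ∈ Ωs, ∏ i, g (s i) ω ≤
      ∑ s ∈ univ.filter (fun s : Fin m → α => NoIso p s),
        (Ωs.card : ℝ) * 2 ^ m * 2 ^ ex p s := by
    rw [← Finset.sum_filter_add_sum_filter_not univ (fun s : Fin m → α => NoIso p s)]
    have h4 : ∑ s ∈ univ.filter (fun s : Fin m → α => ¬ NoIso p s),
        ∑ ω ∈ Ωs, ∏ i, g (s i) ω = 0 := by
      apply Finset.sum_eq_zero
      intro s hs'
      rw [Finset.mem_filter] at hs'
      exact sum_prod_zero hU hmk (fun i => (s i).1) (fun i => hs _ (s i).2)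
        (fun i => hc _ (s i).2) (fun i => hZ _ (s i).2) (fun h => hs'.2 ((hni s).mpr h))
    rw [h4, add_zero]
    apply Finset.sum_le_sum
    intro s _
    exact sum_prod_le hU hmk (fun i => (s i).1)
      (fun i => by rw [(hc _ (s i).2).card_pts, hs _ (s i).2]) (fun i => hZ _ (s i).2)
  have hw' : ∀ V : Finset X, V.card ≤ m * j → ∑ a, wt V (p a) ≤ 2 * Fintype.card α := by
    intro V hV
    rw [hcardα]
    have := hw V hV
    rw [← Finset.sum_coe_sort] at this
    exact this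
  have h5 := sum_noIso (m := m) p j (m * j)
    (fun a => by
      change (pts a.1).card ≤ j
      rw [(hc _ a.2).card_pts, hs _ a.2]) hw' le_rfl
  rw [hcardα] at h5
  rw [← Finset.mul_sum] at h3
  have h6 := h1.trans (h2.le.trans h3)
  -- conclude
  set bad : ℝ := ((Ωs.filter (fun ω => ∀ S ∈ 𝒮, ¬ Sat F ω S)).card : ℝ)
  set T : ℝ := ∑ s ∈ univ.filter (fun s : Fin m → α => NoIso p s), (2 : ℝ) ^ ex p s
  have h7 : (8 : ℝ) ^ m * (bad * (𝒮.card : ℝ) ^ m) ≤
      (Ωs.card : ℝ) * 2 ^ m * (2 * (2 * 𝒮.card) ^ m) := by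
    calc (8 : ℝ) ^ m * (bad * (𝒮.card : ℝ) ^ m) ≤ 8 ^ m * ((Ωs.card : ℝ) * 2 ^ m * T) := by
          apply mul_le_mul_of_nonneg_left h6 (by positivity)
      _ = (Ωs.card : ℝ) * 2 ^ m * (8 ^ m * T) := by ring
      _ ≤ _ := by
          apply mul_le_mul_of_nonneg_left h5 (by positivity)
  have h8 : bad * 2 ^ m ≤ 2 * Ωs.card := by
    have h9 : (0 : ℝ) < 4 ^ m * (𝒮.card : ℝ) ^ m := by positivity
    have h10 : (8 : ℝ) ^ m = 4 ^ m * 2 ^ m := by rw [← mul_pow]; norm_num
    have h11 : (2 : ℝ) ^ m * (2 * 𝒮.card) ^ m = 4 ^ m * (𝒮.card : ℝ) ^ m := by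
      rw [← mul_pow, ← mul_pow]; ring_nf
    have h12 : (4 ^ m * (𝒮.card : ℝ) ^ m) * (bad * 2 ^ m) ≤
        (4 ^ m * (𝒮.card : ℝ) ^ m) * (2 * Ωs.card) := by
      calc (4 ^ m * (𝒮.card : ℝ) ^ m) * (bad * 2 ^ m)
          = (8 : ℝ) ^ m * (bad * (𝒮.card : ℝ) ^ m) := by rw [h10]; ring
        _ ≤ _ := h7
        _ = (2 : ℝ) ^ m * (2 * 𝒮.card) ^ m * (2 * Ωs.card) := by ring
        _ = _ := by rw [h11]
    exact le_of_mul_le_mul_left h12 h9
  have h13 : ((((Ωs.filter (fun ω => ∀ S ∈ 𝒮, ¬ Sat F ω S)).card * 2 ^ m : ℕ)) : ℝ) ≤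
      ((2 * Ωs.card : ℕ) : ℝ) := by
    push_cast
    exact h8
  exact_mod_cast h13

end Pool.Agent.Helper80K3
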